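import Pool.Agent.J6H30.SB.Sol

/-!
Algebraic extensions of sparse degrees over which all embedding problems are solvable.
-/

set_option autoImplicit false
set_option linter.unusedSectionVars false

namespace Pool.Agent.J6H30.SB

open Pool.Agent.H391R2.T4 (HilbField WeakSol)

theorem main (K : Type) [Field K] [Countable K] (hK : HilbField K) (A : Set ℕ) (hA : A.Infinite)
    (F₀ : Type) [Field F₀] [Algebra K F₀] [FiniteDimensional K F₀] [IsGalois K F₀] :
    ∃ (F : Type) (_ : Field F) (_ : Algebra K F), Algebra.IsSeparable K F ∧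
      (∀ M : IntermediateField K F, FiniteDimensional K M →
        ∃ T : Finset ℕ, (T : Set ℕ) ⊆ A ∧ Module.finrank K M ∣ ∏ a ∈ T, a) ∧
      (∀ x : F₀, Irreducible ((minpoly K x).map (algebraMap K F))) ∧
      HilbField F ∧
      ∀ (E : Type) [Field E] [Algebra F E] [FiniteDimensional F E] [Algebra.IsSeparable F E],
        HilbField E ∧ ∀ (F₁ : Type) [Field F₁] [Algebra E F₁] [FiniteDimensional E F₁]
          [IsGalois E F₁] (B : Type) [Group B] [Finite B] (α : B →* (F₁ ≃ₐ[E] F₁)),
          WeakSol E F₁ B α → Proper E F₁ B α := by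
  classical
  let Ω := SeparableClosure K
  have hsc : IsSepClosed Ω := inferInstance
  have hss : Algebra.IsSeparable K Ω := inferInstance
  have hg : IsGalois K Ω := galΩ
  obtain ⟨Q, hQ, hQn, hQo, hQc⟩ := exists_Q (K := K) (Ω := Ω)
  have hcD1 : Countable (D1 Q) := countable_D1 hQo
  have hcΩ : Countable Ω := countable_Ω K Ω
  have hcΩ2 : Countable (Polynomial Ω) := countable_poly Ω
  have hcΩ3 : Countable (Polynomial (Polynomial Ω)) := countable_poly _
  let j₀ : F₀ →ₐ[K] Ω := IsSepClosed.lift
  have hfd0 : FiniteDimensional K j₀.fieldRange := LinearEquiv.finiteDimensional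
    (AlgEquiv.ofInjectiveField j₀).toLinearEquiv
  obtain ⟨k₀, hk₀⟩ := hQc j₀.fieldRange.fixingSubgroup
    (IntermediateField.fixingSubgroup_isOpen _)
  have hstep : HStep A Q (Sum.elim (Pre1 (Q := Q)) (Pre2 (K := K) (Ω := Ω)))
      (Sum.elim Ach1 (Ach2 Q)) := by
    intro d H k N hH hp
    rcases d with d | d
    · exact hstep1 hA hQ hQo hQc (sp_open hK) d H k N hH hp
    · exact hstep2 A hQ hQc hK d H k N hH hp
  have hne : Nonempty (D1 Q ⊕ D2 Ω) := ⟨Sum.inr (0, 0)⟩
  obtain ⟨s, hs, hso, hidx, hprot, hd⟩ := tower hQ hstep k₀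
  let F := IntermediateField.fixedField (⨅ j, s j)
  have hcl : IsClosed ((⨅ j, s j : Subgroup (Ω ≃ₐ[K] Ω)) : Set (Ω ≃ₐ[K] Ω)) := by
    rw [Subgroup.coe_iInf]
    exact isClosed_iInter fun n => Subgroup.isClosed_of_isOpen _ (hso n)
  have hfixF : F.fixingSubgroup = ⨅ j, s j := fix_fixed hcl
  have hF : HilbField F := lim2 hQo hs hso fun d m h => hd (Sum.inr d) m h
  have hlim : LimProp F := by
    intro C hC P hP hPC B _ _ N _ ψ h1 h2 h3
    rw [hfixF] at hC hPC
    exact lim1 hQo hQc hs hso (fun d m h => hd (Sum.inl d) m h) C hC P hP hPC B N ψ h1 h2 h3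
  have hsF : Algebra.IsSeparable K F := Algebra.isSeparable_tower_bot_of_isSeparable K F Ω
  refine ⟨F, inferInstance, inferInstance, hsF, ?_, ?_, hF, ?_⟩
  · intro M hM
    let M' : IntermediateField K Ω := M.map F.val
    have e : M ≃ₐ[K] M' := M.equivMap F.val
    have hM' : FiniteDimensional K M' := LinearEquiv.finiteDimensional e.toLinearEquiv
    obtain ⟨S, hS, hSM⟩ := IntermediateField.fg_def.1
      (IntermediateField.essFiniteType_iff.1 (inferInstance : Algebra.EssFiniteType K M'))
    obtain ⟨m, hm⟩ := exists_level hs hso S hS (by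
      intro x hx
      have h1 : x ∈ M' := by
        rw [← hSM]
        exact IntermediateField.subset_adjoin _ _ hx
      obtain ⟨y, -, rfl⟩ := h1
      exact y.2)
    have hle : M' ≤ IntermediateField.fixedField (s m) := by
      rw [← hSM, IntermediateField.adjoin_le_iff]
      exact fun x hx => hm m le_rfl x hx
    obtain ⟨T, hT, hidx⟩ := hidx m
    refine ⟨T, hT, ?_⟩
    have hfdm : FiniteDimensional K (IntermediateField.fixedField (s m)) := fd_fixed (hso m)
    rw [← hidx, e.toLinearEquiv.finrank_eq]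
    have h1 := IntermediateField.finrank_dvd_of_le_right hle
    have h2 := IntermediateField.finrank_eq_fixingSubgroup_index (F := K) (E' := Ω)
      (IntermediateField.fixedField (s m))
    rw [fix_fixed (Subgroup.isClosed_of_isOpen _ (hso m))] at h2
    exact h1.trans (dvd_of_eq h2)
  · intro x
    have hxi : IsIntegral K x := Algebra.IsIntegral.isIntegral x
    have hxm := minpoly.monic hxi
    have hxirr := minpoly.irreducible hxi
    have hxsep : (minpoly K x).Separable := Algebra.IsSeparable.isSeparable K x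
    have htop : ⊤ ≤ (⨅ j, s j) ⊔ Q k₀ := limit_le hs hso (hQo k₀) hprot
    have hconj : ∀ y z : Ω, Polynomial.aeval y (minpoly K x) = 0 →
        Polynomial.aeval z (minpoly K x) = 0 → ∃ g : Ω ≃ₐ[K] Ω, g y = z := by
      intro y z hy hz
      have h1 : IsConjRoot K z y := by
        unfold IsConjRoot
        rw [← minpoly.eq_of_irreducible_of_monic hxirr hz hxm,
          ← minpoly.eq_of_irreducible_of_monic hxirr hy hxm]
      exact (isConjRoot_iff_exists_algEquiv).1 h1
    have hroot : Polynomial.aeval (j₀ x) (minpoly K x) = 0 := by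
      rw [Polynomial.aeval_algHom_apply, minpoly.aeval, map_zero]
    refine irr_of_trans F _ (hxm.map _) ?_ ?_ ?_
    · rw [hxm.natDegree_map]
      exact (minpoly.natDegree_pos hxi).ne'
    · exact (Polynomial.Separable.map (Polynomial.Separable.map hxsep))
    · intro y z hy hz
      rw [Polynomial.aeval_map_algebraMap] at hy hz
      obtain ⟨g, hg1⟩ := hconj y z hy hz
      have h8 : g ∈ (((⨅ j, s j) ⊔ Q k₀ : Subgroup (Ω ≃ₐ[K] Ω)) : Set (Ω ≃ₐ[K] Ω)) :=
        htop trivial
      rw [Subgroup.mul_normal] at h8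
      obtain ⟨τ, hτ, q, hq, rfl⟩ := h8
      refine ⟨τ, by rw [hfixF]; exact hτ, ?_⟩
      obtain ⟨h, rfl⟩ := hconj (j₀ x) y hroot hy
      have h9 : q (h (j₀ x)) = h (j₀ x) := by
        have h10 : h⁻¹ * q * h ∈ Q k₀ := by
          have := (hQn k₀).conj_mem q hq h⁻¹
          rwa [inv_inv] at this
        have h11 := hk₀ h10
        rw [IntermediateField.mem_fixingSubgroup_iff] at h11
        have h12 := h11 (j₀ x) ⟨x, rfl⟩
        have h13 : h ((h⁻¹ * q * h) (j₀ x)) = h (j₀ x) := by rw [h12]
        have h14 : h * (h⁻¹ * q * h) = q * h := by group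
        rw [← AlgEquiv.mul_apply, h14] at h13
        exact h13
      rw [← hg1]
      change τ (h (j₀ x)) = τ (q (h (j₀ x)))
      rw [h9]
  · intro E _ _ _ _
    refine ⟨hilb_sep F E hF, ?_⟩
    intro F₁ _ _ _ _ B _ _ α hw
    exact ep_sol F hlim E F₁ B α hw

end Pool.Agent.J6H30.SB
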