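import Mathlib
import Pool.Agent.J6H30.SB.Main

/-!
# Algebraic extensions of degree `p^∞` over which all split embedding problems are solvable

Let `K` be any countable Hilbertian field, of any characteristic (the hypothesis is that of the
frozen statement `S03429`), and let `A` be an infinite set of natural numbers, for example the set
of all powers of a prime `p`. Then there is one separable algebraic extension `F` of `K` such that

* the degree of every finite subextension of `F/K` divides a product of distinct elements of `A` (so
  it is a power of `p` in the example),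
* `F` is linearly disjoint over `K` from a given finite Galois extension `F₀/K` (the minimal
  polynomials over `K` of the elements of `F₀` stay irreducible over `F`),
* `F` and all its finite separable extensions `E` are Hilbertian, and every finite split embedding
  problem over `E`, and more generally every weakly solvable one, has a proper solution over `E`:
  the conclusion of Q1 holds for `F` and for all finite separable extensions `E` of `F`, for all
  Galois extensions `F₁/E` and all groups.

(The earlier theorem `SparseBaseChange` concerns the embedding problems given by one fixed finite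
Galois extension `F₁/K` of the ground field, and has no conclusion about the embedding problems over
`F` or `E` which do not come from `K`, nor on the Hilbertian property of `F`.)
-/

set_option autoImplicit false

namespace Pool.Agent.Results.MP_e9d732_al.AlgebraicExtensions

/-- `K` is Hilbertian, as in the frozen statement `S03429`. -/
def Hilbertian (K : Type) [Field K] : Prop :=
  ∀ (f : Polynomial (Polynomial K)), f.Monic → Irreducible f →
    (f.map (algebraMap (Polynomial K) (FractionRing (Polynomial K)))).Separable →
    ∀ g : Polynomial K, g ≠ 0 →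
      ∃ a : K, g.eval a ≠ 0 ∧ Irreducible (f.map (Polynomial.evalRingHom a))

/-- The degree of every finite subextension of `F / K` divides a product of distinct elements
of `A`. -/
def DegreesIn (A : Set ℕ) (K F : Type) [Field K] [Field F] [Algebra K F] : Prop :=
  ∀ M : IntermediateField K F, FiniteDimensional K M →
    ∃ T : Finset ℕ, (T : Set ℕ) ⊆ A ∧ Module.finrank K M ∣ ∏ a ∈ T, a

/-- The finite embedding problem `α : G → Gal(F₁/E)` has a proper solution: there are a finite Galois
extension `N/E` containing `F₁` and an isomorphism `γ : Gal(N/E) → G` such that `α ∘ γ` is the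
restriction to `F₁`. -/
def ProperlySolvable (E F₁ G : Type) [Field E] [Field F₁] [Algebra E F₁] [Normal E F₁] [Group G]
    (α : G →* (F₁ ≃ₐ[E] F₁)) : Prop :=
  ∃ (N : Type) (_ : Field N) (_ : Algebra E N) (_ : Algebra F₁ N) (_ : IsScalarTower E F₁ N),
    FiniteDimensional E N ∧ IsGalois E N ∧
      ∃ γ : (N ≃ₐ[E] N) ≃* G, ∀ σ : N ≃ₐ[E] N, α (γ σ) = σ.restrictNormal F₁

/-- The embedding problem `α : G → Gal(F₁/E)` is weakly solvable: there are a finite Galois extension
`L'/E` containing `F₁` and a homomorphism `s : Gal(L'/E) → G` with `α ∘ s` the restriction to `F₁`. -/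
def WeaklySolvable (E F₁ G : Type) [Field E] [Field F₁] [Algebra E F₁] [Normal E F₁] [Group G]
    (α : G →* (F₁ ≃ₐ[E] F₁)) : Prop :=
  ∃ (L' : Type) (_ : Field L') (_ : Algebra E L') (_ : FiniteDimensional E L')
      (_ : IsGalois E L') (_ : Algebra F₁ L') (_ : IsScalarTower E F₁ L')
      (s : (L' ≃ₐ[E] L') →* G), ∀ ρ, α (s ρ) = ρ.restrictNormal F₁

/-- Every finite split embedding problem over `E` has a proper solution (the conclusion of Q1). -/
def SplitSolvable (E : Type) [Field E] : Prop :=
  ∀ (F₁ : Type) [Field F₁] [Algebra E F₁] [FiniteDimensional E F₁] [IsGalois E F₁]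
    (G : Type) [Group G] [Finite G] (α : G →* (F₁ ≃ₐ[E] F₁)),
    Function.Surjective α → (∃ s : (F₁ ≃ₐ[E] F₁) →* G, ∀ x, α (s x) = x) →
      ProperlySolvable E F₁ G α

/-- Every weakly solvable finite embedding problem over `E` has a proper solution. -/
def WeakSolvable (E : Type) [Field E] : Prop :=
  ∀ (F₁ : Type) [Field F₁] [Algebra E F₁] [FiniteDimensional E F₁] [IsGalois E F₁]
    (G : Type) [Group G] [Finite G] (α : G →* (F₁ ≃ₐ[E] F₁)),
    WeaklySolvable E F₁ G α → ProperlySolvable E F₁ G α

end Pool.Agent.Results.MP_e9d732_al.AlgebraicExtensions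

open Pool.Agent.Results.MP_e9d732_al.AlgebraicExtensions in
theorem Pool.Agent.Results.MP_e9d732_al.AlgebraicExtensions.result :
    ∀ (K : Type) [Field K] [Countable K], Hilbertian K →
      ∀ (A : Set ℕ), A.Infinite →
      ∀ (F₀ : Type) [Field F₀] [Algebra K F₀] [FiniteDimensional K F₀] [IsGalois K F₀],
        ∃ (F : Type) (_ : Field F) (_ : Algebra K F), Algebra.IsSeparable K F ∧
          DegreesIn A K F ∧
          (∀ x : F₀, Irreducible ((minpoly K x).map (algebraMap K F))) ∧
          Hilbertian F ∧ SplitSolvable F ∧ WeakSolvable F ∧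
          ∀ (E : Type) [Field E] [Algebra F E] [FiniteDimensional F E]
            [Algebra.IsSeparable F E], Hilbertian E ∧ SplitSolvable E ∧ WeakSolvable E := by
  intro K _ _ hK A hA F₀ _ _ _ _
  obtain ⟨F, i1, i2, h1, h2, h3, h4, h5⟩ := Pool.Agent.J6H30.SB.main K hK A hA F₀
  have key : ∀ (E : Type) [Field E] [Algebra F E] [FiniteDimensional F E]
      [Algebra.IsSeparable F E], Hilbertian E ∧ SplitSolvable E ∧ WeakSolvable E := by
    intro E _ _ _ _
    obtain ⟨h6, h7⟩ := h5 E
    have h8 : WeakSolvable E := by
      intro F₁ _ _ _ _ G _ _ α hw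
      obtain ⟨N, j1, j2, j3, j4, j5, j6, γ, hγ⟩ := h7 F₁ G α hw
      exact ⟨N, j1, j2, j3, j4, j5, j6, γ, hγ⟩
    refine ⟨h6, ?_, h8⟩
    intro F₁ _ _ _ _ G _ _ α _ hs
    obtain ⟨s, hs⟩ := hs
    exact h8 F₁ G α (Pool.Agent.J6H30.SB.weak_split E F₁ G α s hs)
  obtain ⟨h6, h7, h8⟩ := key F
  exact ⟨F, i1, i2, h1, h2, h3, h6, h7, h8, fun E _ _ _ _ => key E⟩
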