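import Pool.Agent.J6H30.SB.Mono

/-!
Demands given by homomorphisms of open subgroups.
-/

set_option autoImplicit false
set_option linter.unusedSectionVars false

namespace Pool.Agent.J6H30.SB

section dem

variable {G : Type} [Group G] [TopologicalSpace G] (Q : ℕ → Subgroup G) [∀ m, (Q m).Normal]

/-- Codes of homomorphisms from open subgroups to finite groups with a normal subgroup. -/
abbrev D1 : Type :=
  Σ m : ℕ, Σ r : ℕ, Σ S : Subgroup (Equiv.Perm (Fin r)),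
    (Subgroup S × Subgroup (G ⧸ Q m) × ((G ⧸ Q m) → S))

variable {Q}

/-- the finite group -/
abbrev D1.B (d : D1 Q) : Type := d.2.2.1

/-- the normal subgroup -/
abbrev D1.N (d : D1 Q) : Subgroup d.B := d.2.2.2.1

/-- the open subgroup -/
def D1.V (d : D1 Q) : Subgroup G := d.2.2.2.2.1.comap (QuotientGroup.mk' (Q d.1))

/-- the homomorphism -/
def D1.psi (d : D1 Q) (x : G) : d.B := d.2.2.2.2.2 (QuotientGroup.mk x)

/-- the condition -/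
def Pre1 (d : D1 Q) (H : Subgroup G) : Prop :=
  d.N.Normal ∧ MulOn d.psi d.V ∧ ∀ b, ∃ x ∈ d.V ⊓ H, b * (d.psi x)⁻¹ ∈ d.N

/-- the demand is satisfied -/
def Ach1 (d : D1 Q) (H : Subgroup G) (k : ℕ) : Prop :=
  ∃ ψ' : G → d.B, MulOn ψ' (d.V ⊓ H) ∧ Q k ≤ d.V ∧ (∀ x ∈ Q k, x ∈ d.V ⊓ H → ψ' x = 1) ∧
    (∀ b, ∃ x ∈ d.V ⊓ H, ψ' x = b) ∧ ∀ x ∈ d.V ⊓ H, ψ' x * (d.psi x)⁻¹ ∈ d.N

theorem D1.le_V (d : D1 Q) : Q d.1 ≤ d.V := by
  intro x hx
  have h1 : QuotientGroup.mk' (Q d.1) x = 1 := (QuotientGroup.eq_one_iff x).2 hx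
  rw [D1.V, Subgroup.mem_comap, h1]
  exact Subgroup.one_mem _

theorem finite_quot [CompactSpace G] [IsTopologicalGroup G] {P : Subgroup G}
    (hP : IsOpen (P : Set G)) : Finite (G ⧸ P) :=
  Subgroup.quotient_finite_of_isOpen P hP

theorem countable_D1 [CompactSpace G] [IsTopologicalGroup G] (hQo : ∀ n, IsOpen (Q n : Set G)) :
    Countable (D1 Q) := by
  have h1 : ∀ m, Finite (G ⧸ Q m) := fun m => finite_quot (hQo m)
  infer_instance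

theorem hstep1 [CompactSpace G] [IsTopologicalGroup G] {A : Set ℕ} (hA : A.Infinite)
    (hQ : Antitone Q) (hQo : ∀ n, IsOpen (Q n : Set G))
    (hQc : ∀ P : Subgroup G, IsOpen (P : Set G) → ∃ n, Q n ≤ P)
    (hSP : ∀ H : Subgroup G, IsOpen (H : Set G) → SP H) :
    HStep A Q (Pre1 (Q := Q)) Ach1 := by
  intro d H k N₀ hH ⟨hN, hm, hon⟩
  have hVo : IsOpen (d.V : Set G) := Subgroup.isOpen_mono d.le_V (hQo d.1)
  have hfV : Finite (G ⧸ d.V) := finite_quot hVo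
  have hfi : d.V.FiniteIndex := Subgroup.finiteIndex_of_finite_quotient
  have hfin : Finite (H ⧸ (d.V.subgroupOf H)) := Subgroup.finite_quotient_of_finiteIndex
  have h1 : ∀ x ∈ Q d.1, x ∈ H → d.psi x = 1 := by
    intro x hx _
    have h2 : (QuotientGroup.mk x : G ⧸ Q d.1) = QuotientGroup.mk 1 := by
      rw [QuotientGroup.eq_one_iff x |>.2 hx]
      rfl
    have h3 : d.psi x = d.psi 1 := by
      unfold D1.psi
      rw [h2]
    rw [h3, hm.one]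
  obtain ⟨n₀, hn₀⟩ := (hSP H hH).sub d.V hVo d.B d.N d.psi
    (fun x hx y hy => hm x hx.1 y hy.1) ⟨Q d.1, hQo _, fun x hx h2 => h1 x hx h2.2⟩ hon (Q d.1)
    inferInstance (hQo _) d.le_V h1 (Q k) (hQo k)
  obtain ⟨n, hnA, hn⟩ := hA.exists_gt (max n₀ N₀)
  obtain ⟨U, ψ', h2, h3, h4, h5, h6, ⟨R, hR, h7⟩, h8, h9⟩ := hn₀ n
    ((le_max_left _ _).trans hn.le)
  obtain ⟨j, hj⟩ := hQc (R ⊓ d.V) (by rw [Subgroup.coe_inf]; exact hR.inter hVo)
  have hle : Q (max k j) ≤ R ⊓ d.V := (hQ (le_max_right k j)).trans hj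
  exact ⟨U, max k j, h2, h3, le_max_left _ _, h5,
    Or.inr ⟨h4 ▸ hnA, h4 ▸ lt_of_le_of_lt (le_max_right _ _) hn⟩,
    ψ', h6, hle.trans inf_le_right, fun x hx hx2 => h7 x (hle hx).1 hx2, h8, h9⟩

/-- codes of finite groups -/
theorem exists_perm (B : Type) [Group B] [Finite B] :
    ∃ (r : ℕ) (S : Subgroup (Equiv.Perm (Fin r))), Nonempty (B ≃* S) := by
  obtain ⟨r, ⟨e⟩⟩ := Finite.exists_equiv_fin B
  let φ : B →* Equiv.Perm (Fin r) := (e.permCongrHom).toMonoidHom.comp (MulAction.toPermHom B B)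
  have hφ : Function.Injective φ := by
    refine (e.permCongrHom).injective.comp ?_
    exact MulAction.toPerm_injective
  exact ⟨r, φ.range, ⟨MonoidHom.ofInjective hφ⟩⟩

/-- the group theoretic form of the solution of embedding problems -/
theorem lim1 [CompactSpace G] [IsTopologicalGroup G]
    (hQo : ∀ n, IsOpen (Q n : Set G))
    (hQc : ∀ P : Subgroup G, IsOpen (P : Set G) → ∃ n, Q n ≤ P)
    {s : ℕ → Subgroup G} (hs : Antitone s) (hso : ∀ n, IsOpen (s n : Set G))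
    (hd : ∀ (d : D1 Q) (m : ℕ), (∀ n ≥ m, Pre1 d (s n)) →
      ∃ n ≥ m, ∃ k, Ach1 d (s n) k ∧ ∀ j, s n ≤ s j ⊔ Q k)
    (C : Subgroup G) (hC : C ≤ ⨅ j, s j) (P : Subgroup G) (hP : IsOpen (P : Set G))
    (hPC : P ⊓ (⨅ j, s j) ≤ C) (B : Type) [Group B] [Finite B] (N : Subgroup B) [hN : N.Normal]
    (ψ : G → B) (hψ : MulOn ψ C) (ht : Triv ψ C) (hon : ∀ b, ∃ x ∈ C, b * (ψ x)⁻¹ ∈ N) :
    ∃ ψ' : G → B, MulOn ψ' C ∧ Triv ψ' C ∧ (∀ b, ∃ x ∈ C, ψ' x = b) ∧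
      ∀ x ∈ C, ψ' x * (ψ x)⁻¹ ∈ N := by
  classical
  obtain ⟨R, hR, hR1⟩ := ht
  obtain ⟨m, hm⟩ := hQc (R ⊓ P) (by rw [Subgroup.coe_inf]; exact hR.inter hP)
  obtain ⟨r, S, ⟨e⟩⟩ := exists_perm B
  let W : Subgroup (G ⧸ Q m) := C.map (QuotientGroup.mk' (Q m))
  let f : (G ⧸ Q m) → B := fun x => if h : ∃ c ∈ C, (QuotientGroup.mk c : G ⧸ Q m) = x then
    ψ h.choose else 1
  have hf : ∀ c ∈ C, f (QuotientGroup.mk c) = ψ c := by
    intro c hc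
    have h : ∃ c' ∈ C, (QuotientGroup.mk c' : G ⧸ Q m) = QuotientGroup.mk c := ⟨c, hc, rfl⟩
    have h1 : f (QuotientGroup.mk c) = ψ h.choose := dif_pos h
    obtain ⟨h2, h3⟩ := h.choose_spec
    set c' := h.choose
    rw [h1]
    rw [QuotientGroup.eq] at h3
    have h4 : ψ (c'⁻¹ * c) = 1 := hR1 _ (hm h3).1 (C.mul_mem (C.inv_mem h2) hc)
    have h5 : ψ c = ψ c' * ψ (c'⁻¹ * c) := by
      rw [← hψ c' h2 _ (C.mul_mem (C.inv_mem h2) hc), mul_inv_cancel_left]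
    rw [h5, h4, mul_one]
  let d : D1 Q := ⟨m, r, S, N.map e.toMonoidHom, W, fun x => e (f x)⟩
  have hdpsi : ∀ x, d.psi x = e (f (QuotientGroup.mk x)) := fun x => rfl
  have hdV : ∀ x, x ∈ d.V ↔ ∃ c ∈ C, (QuotientGroup.mk c : G ⧸ Q m) = QuotientGroup.mk x :=
    fun x => Iff.rfl
  have hCV : C ≤ d.V := fun x hx => (hdV x).2 ⟨x, hx, rfl⟩
  have hVC : ∀ x ∈ d.V, x ∈ ⨅ j, s j → x ∈ C := by
    intro x hx hx2
    obtain ⟨c, hc, hcx⟩ := (hdV x).1 hx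
    rw [QuotientGroup.eq] at hcx
    have h1 : c⁻¹ * x ∈ C := hPC ⟨(hm hcx).2, Subgroup.mul_mem _ (Subgroup.inv_mem _ (hC hc)) hx2⟩
    have h2 := C.mul_mem hc h1
    rwa [mul_inv_cancel_left] at h2
  have hNn : d.N.Normal := by
    change (N.map e.toMonoidHom).Normal
    exact hN.map _ e.surjective
  have hmul : MulOn d.psi d.V := by
    intro x hx y hy
    obtain ⟨c, hc, hcx⟩ := (hdV x).1 hx
    obtain ⟨c', hc', hcy⟩ := (hdV y).1 hy
    rw [hdpsi, hdpsi, hdpsi, QuotientGroup.mk_mul, ← hcx, ← hcy, ← QuotientGroup.mk_mul,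
      hf c hc, hf c' hc', hf _ (C.mul_mem hc hc'), hψ c hc c' hc', map_mul]
  have hpre : ∀ n ≥ 0, Pre1 d (s n) := by
    intro n _
    refine ⟨hNn, hmul, fun b => ?_⟩
    obtain ⟨x, hx, hxb⟩ := hon (e.symm b)
    refine ⟨x, ⟨hCV hx, (Subgroup.mem_iInf.1 (hC hx)) n⟩, ?_⟩
    rw [hdpsi, hf x hx]
    refine ⟨_, hxb, ?_⟩
    change e (e.symm b * (ψ x)⁻¹) = _
    rw [map_mul, map_inv, MulEquiv.apply_symm_apply]
  obtain ⟨n, -, k, ⟨ψ', h1, h2, h3, h4, h5⟩, h6⟩ := hd d 0 hpre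
  have hCn : C ≤ d.V ⊓ s n := le_inf hCV (hC.trans (iInf_le _ n))
  refine ⟨fun x => e.symm (ψ' x), ?_, ⟨Q k, hQo k, fun x hx hxC => ?_⟩, fun b => ?_,
    fun x hx => ?_⟩
  · intro x hx y hy
    change e.symm (ψ' (x * y)) = e.symm (ψ' x) * e.symm (ψ' y)
    rw [h1 x (hCn hx) y (hCn hy), map_mul]
  · change e.symm (ψ' x) = 1
    rw [h3 x hx (hCn hxC), map_one]
  · obtain ⟨x, hx, hxb⟩ := h4 (e b)
    have h7 : s n ≤ (⨅ j, s j) ⊔ Q k := limit_le hs hso (hQo k) h6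
    have h8 : x ∈ ((⨅ j, s j) ⊔ Q k : Subgroup G) := h7 hx.2
    have h9 : x ∈ (((⨅ j, s j) ⊔ Q k : Subgroup G) : Set G) := h8
    rw [Subgroup.mul_normal] at h9
    obtain ⟨y, hy, q, hq, rfl⟩ := h9
    have hqV : q ∈ d.V := h2 hq
    have hyV : y ∈ d.V := by
      have := d.V.mul_mem hx.1 (d.V.inv_mem hqV)
      rwa [mul_inv_cancel_right] at this
    have hyn : y ∈ s n := Subgroup.mem_iInf.1 hy n
    have hqn : q ∈ s n := by
      have := (s n).mul_mem ((s n).inv_mem hyn) hx.2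
      rwa [inv_mul_cancel_left] at this
    refine ⟨y, hVC y hyV hy, ?_⟩
    change e.symm (ψ' y) = b
    have h10 := h1 y ⟨hyV, hyn⟩ q ⟨hqV, hqn⟩
    rw [hxb, h3 q hq ⟨hqV, hqn⟩, mul_one] at h10
    rw [← h10, MulEquiv.symm_apply_apply]
  · have h7 := h5 x (hCn hx)
    rw [hdpsi, hf x hx] at h7
    obtain ⟨z, hz, hz2⟩ := h7
    have hz3 : e z = ψ' x * (e (ψ x))⁻¹ := hz2
    have h8 : e.symm (ψ' x) * (ψ x)⁻¹ = z := by
      apply e.injective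
      rw [map_mul, map_inv, MulEquiv.apply_symm_apply, hz3]
    change e.symm (ψ' x) * (ψ x)⁻¹ ∈ N
    rw [h8]
    exact hz

end dem

end Pool.Agent.J6H30.SB
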