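import Mathlib

/-!
Separability over the field of rational functions: change of the constants, specialization.
-/

set_option autoImplicit false

namespace Pool.Agent.J6H30.SB

open Polynomial

/-- separable over the rational functions -/
def SepF {F : Type} [Field F] (f : F[X][X]) : Prop :=
  (f.map (algebraMap F[X] (FractionRing F[X]))).Separable

theorem sepF_map {E F : Type} [Field E] [Field F] (φ : E →+* F) (f : E[X][X]) :
    SepF (f.map (mapRingHom φ)) ↔ SepF f := by
  have hinj : Function.Injective ((algebraMap F[X] (FractionRing F[X])).comp (mapRingHom φ)) :=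
    (IsFractionRing.injective F[X] (FractionRing F[X])).comp
      (Polynomial.map_injective φ φ.injective)
  let ρ : FractionRing E[X] →+* FractionRing F[X] := IsFractionRing.lift hinj
  have hρ : ρ.comp (algebraMap E[X] (FractionRing E[X])) =
      (algebraMap F[X] (FractionRing F[X])).comp (mapRingHom φ) := by
    ext x
    · simp [ρ]
    · simp [ρ]
  unfold SepF
  rw [← Polynomial.separable_map ρ, Polynomial.map_map, Polynomial.map_map, hρ]

theorem spec_sep {F : Type} [Field F] (f : F[X][X]) (hf : SepF f) :
    ∃ d : F[X], d ≠ 0 ∧ ∀ a : F, d.eval a ≠ 0 → (f.map (evalRingHom a)).Separable := by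
  obtain ⟨u, v, huv⟩ := hf
  obtain ⟨b, hb1, hb⟩ := IsLocalization.integerNormalization_spec (nonZeroDivisors F[X]) u
  obtain ⟨c, hc1, hc⟩ := IsLocalization.integerNormalization_spec (nonZeroDivisors F[X]) v
  set u' := IsLocalization.integerNormalization (nonZeroDivisors F[X]) u
  set v' := IsLocalization.integerNormalization (nonZeroDivisors F[X]) v
  have hb0 : b ≠ 0 := nonZeroDivisors.ne_zero hb1
  have hc0 : c ≠ 0 := nonZeroDivisors.ne_zero hc1
  have key : (C c * u') * f + (C b * v') * derivative f =
      C (b * c) := by
    apply Polynomial.map_injective (algebraMap F[X] (FractionRing F[X]))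
      (IsFractionRing.injective F[X] (FractionRing F[X]))
    rw [Polynomial.map_add, Polynomial.map_mul, Polynomial.map_mul, Polynomial.map_mul,
      Polynomial.map_mul, ← Polynomial.derivative_map, hb, hc, Polynomial.map_C,
      Polynomial.map_C, Polynomial.map_C, map_mul, C_mul]
    rw [Algebra.smul_def, Algebra.smul_def]
    have e1 : algebraMap F[X] (FractionRing F[X])[X] b =
        C (algebraMap F[X] (FractionRing F[X]) b) := rfl
    have e2 : algebraMap F[X] (FractionRing F[X])[X] c =
        C (algebraMap F[X] (FractionRing F[X]) c) := rfl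
    rw [e1, e2]
    linear_combination (C (algebraMap F[X] (FractionRing F[X]) b) *
      C (algebraMap F[X] (FractionRing F[X]) c)) * huv
  refine ⟨b * c, mul_ne_zero hb0 hc0, fun a ha => ?_⟩
  have h1 := congrArg (Polynomial.map (evalRingHom a)) key
  have h3 : Polynomial.map (evalRingHom a) (C (b * c)) = C (eval a (b * c)) :=
    Polynomial.map_C _
  rw [Polynomial.map_add, Polynomial.map_mul, Polynomial.map_mul (evalRingHom a) (q := derivative f),
    ← Polynomial.derivative_map, h3] at h1
  refine ⟨C (eval a (b * c))⁻¹ * Polynomial.map (evalRingHom a) (C c * u'),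
    C (eval a (b * c))⁻¹ * Polynomial.map (evalRingHom a) (C b * v'), ?_⟩
  have h2 : C (eval a (b * c))⁻¹ * C (eval a (b * c)) = 1 := by
    rw [← C_mul, inv_mul_cancel₀ ha, C_1]
  linear_combination C (eval a (b * c))⁻¹ * h1 + h2

end Pool.Agent.J6H30.SB
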