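import Pool.Agent.J6H30.SB.Open
import Pool.Agent.J6H30.SB.Dem
import Pool.Agent.J6H30.SB.PolyAux

/-!
Demands given by polynomials: the limit field is Hilbertian.
-/

set_option autoImplicit false
set_option linter.unusedSectionVars false

namespace Pool.Agent.J6H30.SB

open Polynomial
open Pool.Agent.H391R2.T4 (HilbField)

section

variable {K Ω : Type} [Field K] [Field Ω] [Algebra K Ω] [IsSepClosed Ω]
  [Algebra.IsSeparable K Ω]

theorem countable_Ω (K Ω : Type) [Field K] [Field Ω] [Algebra K Ω] [Algebra.IsSeparable K Ω]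
    [Countable K] : Countable Ω := by
  rw [← Cardinal.mk_le_aleph0_iff]
  refine (Algebra.IsAlgebraic.cardinalMk_le_max K Ω).trans ?_
  rw [max_le_iff]
  exact ⟨Cardinal.mk_le_aleph0_iff.2 inferInstance, le_rfl⟩

theorem countable_poly (R : Type) [CommRing R] [Countable R] : Countable R[X] := by
  rw [← Cardinal.mk_le_aleph0_iff]
  refine (Polynomial.cardinalMk_le_max).trans ?_
  rw [max_le_iff]
  exact ⟨Cardinal.mk_le_aleph0_iff.2 inferInstance, le_rfl⟩

theorem fix_adjoin {S : Set Ω} {σ : Ω ≃ₐ[K] Ω} (h : ∀ x ∈ S, σ x = x) :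
    σ ∈ (IntermediateField.adjoin K S).fixingSubgroup := by
  rw [IntermediateField.mem_fixingSubgroup_iff]
  intro x hx
  induction hx using IntermediateField.adjoin_induction with
  | mem x hx => exact h x hx
  | algebraMap x => exact σ.commutes x
  | add x y _ _ hx hy => rw [map_add, hx, hy]
  | inv x _ hx => rw [map_inv₀, hx]
  | mul x y _ _ hx hy => rw [map_mul, hx, hy]

theorem open_adjoin {S : Set Ω} (hS : S.Finite) :
    IsOpen ((IntermediateField.adjoin K S).fixingSubgroup : Set (Ω ≃ₐ[K] Ω)) := by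
  have hfinS : Finite S := hS
  have : FiniteDimensional K (IntermediateField.adjoin K S) :=
    IntermediateField.finiteDimensional_adjoin fun x _ => Algebra.IsSeparable.isIntegral K x
  exact IntermediateField.fixingSubgroup_isOpen _

theorem exists_Q [Countable K] : ∃ Q : ℕ → Subgroup (Ω ≃ₐ[K] Ω), Antitone Q ∧
    (∀ n, (Q n).Normal) ∧ (∀ n, IsOpen (Q n : Set (Ω ≃ₐ[K] Ω))) ∧
    ∀ P : Subgroup (Ω ≃ₐ[K] Ω), IsOpen (P : Set (Ω ≃ₐ[K] Ω)) → ∃ n, Q n ≤ P := by
  have hc : Countable Ω := countable_Ω K Ω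
  obtain ⟨e, he⟩ := exists_surjective_nat Ω
  let Q : ℕ → Subgroup (Ω ≃ₐ[K] Ω) := fun n =>
    { carrier := {σ | ∀ i ≤ n, ∀ y : Ω, aeval y (minpoly K (e i)) = 0 → σ y = y}
      one_mem' := fun i _ y _ => rfl
      mul_mem' := fun {σ τ} hσ hτ i hi y hy => by
        rw [AlgEquiv.mul_apply, hτ i hi y hy, hσ i hi y hy]
      inv_mem' := fun {σ} hσ i hi y hy => by
        have h1 := hσ i hi y hy
        have h2 : σ⁻¹ (σ y) = y := by
          rw [← AlgEquiv.mul_apply, inv_mul_cancel]; rfl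
        rw [h1] at h2
        exact h2 }
  have hQ : ∀ n σ, σ ∈ Q n ↔ ∀ i ≤ n, ∀ y : Ω, aeval y (minpoly K (e i)) = 0 → σ y = y :=
    fun n σ => Iff.rfl
  refine ⟨Q, fun a b hab σ hσ i hi => hσ i (hi.trans hab), fun n => ⟨fun σ hσ τ => ?_⟩,
    fun n => ?_, fun P hP => ?_⟩
  · rw [hQ]
    intro i hi y hy
    have h1 : aeval (τ⁻¹ y) (minpoly K (e i)) = 0 := by
      have := Polynomial.aeval_algHom_apply (τ⁻¹ : Ω ≃ₐ[K] Ω).toAlgHom y (minpoly K (e i))
      rw [hy, map_zero] at this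
      exact this
    rw [AlgEquiv.mul_apply, AlgEquiv.mul_apply, hσ i hi _ h1, ← AlgEquiv.mul_apply,
      mul_inv_cancel]
    rfl
  · have hfin : (⋃ i ∈ Finset.range (n + 1), (minpoly K (e i)).rootSet Ω).Finite := by
      refine Set.Finite.biUnion (Finset.finite_toSet _) fun i _ => Polynomial.rootSet_finite _ _
    refine Subgroup.isOpen_mono ?_ (open_adjoin (K := K) hfin)
    intro σ hσ i hi y hy
    rw [IntermediateField.mem_fixingSubgroup_iff] at hσ
    apply hσ
    apply IntermediateField.subset_adjoin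
    rw [Set.mem_iUnion₂]
    refine ⟨i, Finset.mem_range.2 (by omega), ?_⟩
    rw [Polynomial.mem_rootSet]
    exact ⟨minpoly.ne_zero (Algebra.IsSeparable.isIntegral K _), hy⟩
  · obtain ⟨L, hf, hg, hL⟩ := exists_fix hP
    obtain ⟨θ, hθ⟩ := Field.exists_primitive_element K L
    obtain ⟨n, hn⟩ := he (θ : Ω)
    refine ⟨n, le_trans (fun σ hσ => ?_) hL⟩
    rw [IntermediateField.mem_fixingSubgroup_iff]
    have h1 : σ (θ : Ω) = θ := by
      apply hσ n le_rfl
      rw [hn]
      exact minpoly.aeval K _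
    have h2 : L = IntermediateField.adjoin K {(θ : Ω)} := by
      have := congrArg (IntermediateField.lift) hθ
      rw [IntermediateField.lift_adjoin_simple, IntermediateField.lift_top] at this
      exact this.symm
    have h3 := fix_adjoin (K := K) (S := {(θ : Ω)}) (σ := σ) (by
      intro x hx
      rw [Set.mem_singleton_iff] at hx
      rw [hx]; exact h1)
    rw [← h2, IntermediateField.mem_fixingSubgroup_iff] at h3
    exact h3

/-- Codes of polynomials in two variables and of polynomials in one variable. -/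
abbrev D2 (Ω : Type) [Field Ω] : Type := Polynomial (Polynomial Ω) × Polynomial Ω

/-- the condition -/
def Pre2 (d : D2 Ω) (H : Subgroup (Ω ≃ₐ[K] Ω)) : Prop :=
  d.1.Monic ∧ SepF d.1 ∧ d.2 ≠ 0 ∧
    ∃ f : (IntermediateField.fixedField H)[X][X], Irreducible f ∧
      f.map (mapRingHom (algebraMap (IntermediateField.fixedField H) Ω)) = d.1

/-- the demand is satisfied -/
def Ach2 (Q : ℕ → Subgroup (Ω ≃ₐ[K] Ω)) (d : D2 Ω) (H : Subgroup (Ω ≃ₐ[K] Ω)) (k : ℕ) : Prop :=
  ∃ a ∈ IntermediateField.fixedField H, d.2.eval a ≠ 0 ∧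
    (d.1.map (evalRingHom a)).Separable ∧
    (∀ x y : Ω, (d.1.map (evalRingHom a)).eval x = 0 → (d.1.map (evalRingHom a)).eval y = 0 →
      ∃ σ ∈ H, σ x = y) ∧
    ∀ σ ∈ Q k, ∀ x : Ω, (d.1.map (evalRingHom a)).eval x = 0 → σ x = x

theorem map_spec {E F : Type} [Field E] [Field F] (φ : E →+* F) (f : E[X][X]) (a : E) :
    (f.map (mapRingHom φ)).map (evalRingHom (φ a)) = (f.map (evalRingHom a)).map φ := by
  rw [Polynomial.map_map, Polynomial.map_map]
  congr 1
  ext x
  · simp
  · simp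

theorem up_monic {E F : Type} [Field E] [Field F] (φ : E →+* F) (f : E[X][X]) :
    (f.map (mapRingHom φ)).Monic ↔ f.Monic :=
  (Function.Injective.monic_map_iff (Polynomial.map_injective φ φ.injective)).symm

theorem core2 (hK : HilbField K) (E : IntermediateField K Ω) [FiniteDimensional K E]
    (f : E[X][X]) (hf : Irreducible f) (F : Polynomial (Polynomial Ω)) (g : Polynomial Ω)
    (hfF : f.map (mapRingHom (algebraMap E Ω)) = F) (hm : F.Monic) (hs : SepF F) (h0 : g ≠ 0) :
    ∃ a ∈ E, g.eval a ≠ 0 ∧ (F.map (evalRingHom a)).Separable ∧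
      (∀ x y : Ω, (F.map (evalRingHom a)).eval x = 0 → (F.map (evalRingHom a)).eval y = 0 →
        ∃ σ ∈ E.fixingSubgroup, σ x = y) ∧
      ∃ S : Set Ω, S.Finite ∧ ∀ x : Ω, (F.map (evalRingHom a)).eval x = 0 → x ∈ S := by
  have hEh : HilbField E := hilb_sep K E hK
  have hfm : f.Monic := by
    rw [← up_monic (algebraMap E Ω), hfF]; exact hm
  have hfs : SepF f := by
    rw [← sepF_map (algebraMap E Ω), hfF]; exact hs
  obtain ⟨c, hc0, hc⟩ := spec_sep F hs
  obtain ⟨g', hg0, hg⟩ := Pool.Agent.H793R2.HilbFin.avoid (K := E) (K' := Ω) (g * c)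
    (mul_ne_zero h0 hc0)
  obtain ⟨a, ha, hai⟩ := hEh f hfm hf hfs g' hg0
  have h1 := hg a ha
  rw [eval_mul] at h1
  have h2 : F.map (evalRingHom (algebraMap E Ω a)) =
      (f.map (evalRingHom a)).map (algebraMap E Ω) := by
    rw [← hfF, map_spec]
  have hpm : (f.map (evalRingHom a)).Monic := hfm.map _
  refine ⟨algebraMap E Ω a, a.2, left_ne_zero_of_mul h1, hc _ (right_ne_zero_of_mul h1), ?_,
    (f.map (evalRingHom a)).rootSet Ω, Polynomial.rootSet_finite _ _, fun x hx => ?_⟩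
  · intro x y hx hy
    rw [h2, eval_map_algebraMap] at hx hy
    have hconj : IsConjRoot E y x := by
      unfold IsConjRoot
      rw [← minpoly.eq_of_irreducible_of_monic hai hx hpm,
        ← minpoly.eq_of_irreducible_of_monic hai hy hpm]
    have hgE : IsGalois E Ω := galΩ
    obtain ⟨σ, hσ⟩ := (isConjRoot_iff_exists_algEquiv).1 hconj
    exact ⟨inc E σ, inc_mem E σ, hσ⟩
  · rw [h2, eval_map_algebraMap] at hx
    rw [Polynomial.mem_rootSet]
    exact ⟨hpm.ne_zero, hx⟩

theorem hstep2 (A : Set ℕ) {Q : ℕ → Subgroup (Ω ≃ₐ[K] Ω)} (hQ : Antitone Q)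
    (hQc : ∀ P : Subgroup (Ω ≃ₐ[K] Ω), IsOpen (P : Set (Ω ≃ₐ[K] Ω)) → ∃ n, Q n ≤ P)
    (hK : HilbField K) :
    HStep A Q (Pre2 (K := K) (Ω := Ω)) (Ach2 Q) := by
  intro d H k _ hH ⟨hm, hs, h0, f, hf, hfd⟩
  have hfix : (IntermediateField.fixedField H).fixingSubgroup = H :=
    fix_fixed (Subgroup.isClosed_of_isOpen H hH)
  have hfd' : FiniteDimensional K (IntermediateField.fixedField H) := fd_fixed hH
  obtain ⟨a, ha, h1, h2, h3, S, hS, h4⟩ := core2 hK (IntermediateField.fixedField H) f hf d.1 d.2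
    hfd hm hs h0
  obtain ⟨j, hj⟩ := hQc _ (open_adjoin (K := K) hS)
  refine ⟨H, max k j, le_rfl, hH, le_max_left _ _, le_sup_left, Or.inl rfl, a,
    ha, h1, h2, ?_, ?_⟩
  · rw [hfix] at h3
    exact h3
  · intro σ hσ x hx
    have h5 := hj (hQ (le_max_right k j) hσ)
    rw [IntermediateField.mem_fixingSubgroup_iff] at h5
    exact h5 _ (IntermediateField.subset_adjoin _ _ (h4 x hx))

/-- irreducibility from transitivity -/
theorem irr_of_trans (F : IntermediateField K Ω) (p : F[X]) (hpm : p.Monic)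
    (hd : p.natDegree ≠ 0) (hs : (p.map (algebraMap F Ω)).Separable)
    (ht : ∀ x y : Ω, aeval x p = 0 → aeval y p = 0 → ∃ σ ∈ F.fixingSubgroup, σ x = y) :
    Irreducible p := by
  rw [Polynomial.separable_map] at hs
  obtain ⟨x, hx⟩ := IsSepClosed.exists_aeval_eq_zero Ω p (by
    intro h0; exact hd (natDegree_eq_of_degree_eq_some h0)) hs
  obtain ⟨w, hw⟩ := minpoly.dvd F x hx
  have hxi : IsIntegral F x := Algebra.IsSeparable.isIntegral F x
  have hmm := minpoly.monic hxi
  have hwm : w.Monic := by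
    rw [hw] at hpm
    exact Monic.of_mul_monic_left hmm hpm
  rw [hw] at hs
  have hw0 : w.natDegree = 0 := by
    by_contra hne
    obtain ⟨y, hy⟩ := IsSepClosed.exists_aeval_eq_zero Ω w (by
      intro h0; exact hne (natDegree_eq_of_degree_eq_some h0)) hs.of_mul_right
    obtain ⟨σ, hσ, hσx⟩ := ht x y hx (by rw [hw, map_mul, hy, mul_zero])
    obtain ⟨τ, rfl⟩ := exists_inc hσ
    have h1 : aeval y (minpoly F x) = 0 := by
      rw [← hσx]
      have := Polynomial.aeval_algHom_apply τ.toAlgHom x (minpoly F x)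
      rw [minpoly.aeval, map_zero] at this
      exact this
    obtain ⟨u, v, huv⟩ := hs.isCoprime
    have h2 := congrArg (aeval y) huv
    rw [map_add, map_mul, map_mul, h1, hy, map_one, mul_zero, mul_zero, add_zero] at h2
    exact zero_ne_one h2
  rw [hw, hwm.natDegree_eq_zero.1 hw0, mul_one]
  exact minpoly.irreducible hxi

end

end Pool.Agent.J6H30.SB
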