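import Mathlib
import Pool.Agent.H793R2.HilbFin

/-!
Finite separable extensions of Hilbertian fields (of any characteristic) are Hilbertian.
-/

set_option autoImplicit false

namespace Pool.Agent.J6H30.SB

open Polynomial Module
open scoped IntermediateField nonZeroDivisors
open Pool.Agent.H391R2.T4 (HilbField)
open Pool.Agent.H793R2.HilbFin (irreducible_of_elem finite_poly finrank_poly avoid)

attribute [local instance] Polynomial.algebra
attribute [local instance] FractionRing.liftAlgebra

theorem sep_of_gen (E F B : Type) [Field E] [Field F] [Algebra E F] [CommRing B] [IsDomain B]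
    [Algebra B F] [IsFractionRing B F] (h : ∀ b : B, IsSeparable E (algebraMap B F b)) :
    Algebra.IsSeparable E F := by
  rw [← separableClosure.eq_top_iff, eq_top_iff]
  intro x _
  obtain ⟨a, s, hs, rfl⟩ := IsFractionRing.div_surjective (A := B) x
  exact div_mem (mem_separableClosure_iff.2 (h a)) (mem_separableClosure_iff.2 (h s))

theorem exists_generator_sep (A M : Type) [CommRing A] [IsDomain A] [CommRing M]
    [IsDomain M] [Algebra A M] [FaithfulSMul A M] [Module.Finite A M]
    [Algebra.IsSeparable (FractionRing A) (FractionRing M)] :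
    ∃ m : M, (FractionRing A)⟮algebraMap M (FractionRing M) m⟯ =
      (⊤ : IntermediateField (FractionRing A) (FractionRing M)) := by
  have htf : IsTorsionFree A M := inferInstance
  have hfd : FiniteDimensional (FractionRing A) (FractionRing M) := inferInstance
  obtain ⟨γ, hγ⟩ := Field.exists_primitive_element (FractionRing A) (FractionRing M)
  obtain ⟨m, s, hs, hms⟩ := IsFractionRing.div_surjective (A := M) γ
  have halg : Algebra.IsAlgebraic A M := Algebra.IsIntegral.isAlgebraic
  obtain ⟨r, hr, s', hs'⟩ := (Algebra.IsAlgebraic.isAlgebraic (R := A) s).exists_nonzero_dvd hs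
  refine ⟨m * s', ?_⟩
  have hs0 : algebraMap M (FractionRing M) s ≠ 0 := by
    rw [Ne, IsFractionRing.to_map_eq_zero_iff]
    exact nonZeroDivisors.ne_zero hs
  have hr0 : algebraMap A (FractionRing A) r ≠ 0 := by
    rw [Ne, IsFractionRing.to_map_eq_zero_iff]
    exact hr
  have h1 : algebraMap M (FractionRing M) (m * s') =
      algebraMap (FractionRing A) (FractionRing M) (algebraMap A (FractionRing A) r) * γ := by
    rw [← IsScalarTower.algebraMap_apply A (FractionRing A) (FractionRing M),
      IsScalarTower.algebraMap_apply A M (FractionRing M), hs', ← hms, map_mul, map_mul]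
    field_simp
  rw [h1, eq_top_iff, ← hγ, IntermediateField.adjoin_simple_le_iff]
  set G := (FractionRing A)⟮algebraMap (FractionRing A) (FractionRing M)
    (algebraMap A (FractionRing A) r) * γ⟯ with hG
  have h2 : algebraMap (FractionRing A) (FractionRing M) (algebraMap A (FractionRing A) r) * γ ∈ G :=
    IntermediateField.mem_adjoin_simple_self _ _
  have h3 : algebraMap (FractionRing A) (FractionRing M) (algebraMap A (FractionRing A) r)⁻¹ ∈ G :=
    G.algebraMap_mem _
  have h4 := G.mul_mem h3 h2
  rw [← mul_assoc, ← map_mul, inv_mul_cancel₀ hr0, map_one, one_mul] at h4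
  exact h4

theorem hilb_sep (K K' : Type) [Field K] [Field K'] [Algebra K K']
    [FiniteDimensional K K'] [Algebra.IsSeparable K K'] (hK : HilbField K) : HilbField K' := by
  intro f hfm hfi hfs g hg
  have hprime : Prime f := hfi.prime
  have hdom : IsDomain (AdjoinRoot f) := AdjoinRoot.isDomain_of_prime hprime
  have hfdeg : f.natDegree ≠ 0 := by
    intro h0
    apply hfi.not_isUnit
    rw [hfm.natDegree_eq_zero.mp h0]
    exact isUnit_one
  have hfdeg' : f.degree ≠ 0 := by
    intro h0
    exact hfdeg (natDegree_eq_of_degree_eq_some h0)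
  have hfin1 : Module.Finite K[X] K'[X] := finite_poly K K'
  have hfin2 : Module.Finite K'[X] (AdjoinRoot f) := hfm.finite_adjoinRoot
  have hfin : Module.Finite K[X] (AdjoinRoot f) := Module.Finite.trans K'[X] (AdjoinRoot f)
  have hinj2 : Function.Injective (algebraMap K'[X] (AdjoinRoot f)) :=
    AdjoinRoot.of.injective_of_degree_ne_zero hfdeg'
  have hff2 : FaithfulSMul K'[X] (AdjoinRoot f) := (faithfulSMul_iff_algebraMap_injective _ _).mpr hinj2
  have hinj : Function.Injective (algebraMap K[X] (AdjoinRoot f)) := by
    rw [IsScalarTower.algebraMap_eq K[X] K'[X] (AdjoinRoot f)]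
    exact hinj2.comp (FaithfulSMul.algebraMap_injective K[X] K'[X])
  have hff : FaithfulSMul K[X] (AdjoinRoot f) := (faithfulSMul_iff_algebraMap_injective _ _).mpr hinj
  -- separability
  have tKK : IsScalarTower K[X] (FractionRing K[X]) (FractionRing K'[X]) := inferInstance
  have tKf : IsScalarTower K'[X] (FractionRing K'[X]) (FractionRing (AdjoinRoot f)) :=
    inferInstance
  have tt : IsScalarTower (FractionRing K[X]) (FractionRing K'[X])
      (FractionRing (AdjoinRoot f)) := by
    have t1 : IsScalarTower K[X] (FractionRing K'[X]) (FractionRing (AdjoinRoot f)) := by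
      refine IsScalarTower.of_algebraMap_eq fun x => ?_
      rw [IsScalarTower.algebraMap_apply K[X] (AdjoinRoot f) (FractionRing (AdjoinRoot f)),
        IsScalarTower.algebraMap_apply K[X] K'[X] (AdjoinRoot f),
        IsScalarTower.algebraMap_apply K[X] K'[X] (FractionRing K'[X]),
        ← IsScalarTower.algebraMap_apply K'[X] (FractionRing K'[X]) (FractionRing (AdjoinRoot f)),
        IsScalarTower.algebraMap_apply K'[X] (AdjoinRoot f) (FractionRing (AdjoinRoot f))]
    infer_instance
  have hs1 : Algebra.IsSeparable (FractionRing K[X]) (FractionRing K'[X]) := by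
    refine sep_of_gen (FractionRing K[X]) (FractionRing K'[X]) K'[X] fun b => ?_
    rw [← mem_separableClosure_iff]
    have hC : ∀ c : K', algebraMap K'[X] (FractionRing K'[X]) (C c) ∈
        separableClosure (FractionRing K[X]) (FractionRing K'[X]) := by
      intro c
      rw [mem_separableClosure_iff]
      let φ : K' →ₐ[K] FractionRing K'[X] :=
        { ((algebraMap K'[X] (FractionRing K'[X])).comp C : K' →+* FractionRing K'[X]) with
          commutes' := fun k => by
            change algebraMap K'[X] (FractionRing K'[X]) (C (algebraMap K K' k)) = _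
            rw [IsScalarTower.algebraMap_apply K K'[X] (FractionRing K'[X])]
            rfl }
      have h1 : IsSeparable K (φ c) :=
        (Algebra.IsSeparable.isSeparable K c).map φ φ.toRingHom.injective
      have t2 : IsScalarTower K (FractionRing K[X]) (FractionRing K'[X]) := by
        refine IsScalarTower.of_algebraMap_eq fun x => ?_
        rw [IsScalarTower.algebraMap_apply K K[X] (FractionRing K[X]),
          ← IsScalarTower.algebraMap_apply K[X] (FractionRing K[X]) (FractionRing K'[X]),
          IsScalarTower.algebraMap_apply K[X] K'[X] (FractionRing K'[X]),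
          IsScalarTower.algebraMap_apply K K'[X] (FractionRing K'[X]),
          IsScalarTower.algebraMap_apply K K[X] K'[X]]
      exact IsSeparable.tower_top (FractionRing K[X]) h1
    have hX : algebraMap K'[X] (FractionRing K'[X]) X ∈
        separableClosure (FractionRing K[X]) (FractionRing K'[X]) := by
      have h1 : algebraMap K'[X] (FractionRing K'[X]) X = algebraMap (FractionRing K[X])
          (FractionRing K'[X]) (algebraMap K[X] (FractionRing K[X]) X) := by
        rw [← IsScalarTower.algebraMap_apply K[X] (FractionRing K[X]) (FractionRing K'[X]),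
          IsScalarTower.algebraMap_apply K[X] K'[X] (FractionRing K'[X])]
        congr 1
        change X = (X : K[X]).map (algebraMap K K')
        rw [map_X]
      rw [h1]
      exact IntermediateField.algebraMap_mem _ _
    induction b using Polynomial.induction_on' with
    | add p q hp hq => rw [map_add]; exact add_mem hp hq
    | monomial n a =>
      rw [← C_mul_X_pow_eq_monomial, map_mul, map_pow]
      exact mul_mem (hC a) (pow_mem hX n)
  have hs2 : Algebra.IsSeparable (FractionRing K'[X]) (FractionRing (AdjoinRoot f)) := by
    refine sep_of_gen _ _ (AdjoinRoot f) fun b => ?_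
    rw [← mem_separableClosure_iff]
    have hr : algebraMap (AdjoinRoot f) (FractionRing (AdjoinRoot f)) (AdjoinRoot.root f) ∈
        separableClosure (FractionRing K'[X]) (FractionRing (AdjoinRoot f)) := by
      rw [mem_separableClosure_iff]
      refine Separable.of_dvd hfs (minpoly.dvd _ _ ?_)
      rw [aeval_map_algebraMap, aeval_algebraMap_apply, aeval_def]
      have h1 := AdjoinRoot.eval₂_root f
      rw [AdjoinRoot.algebraMap_eq, h1, map_zero]
    have hB : ∀ c : K'[X], algebraMap (AdjoinRoot f) (FractionRing (AdjoinRoot f))
        (AdjoinRoot.of f c) ∈ separableClosure (FractionRing K'[X])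
          (FractionRing (AdjoinRoot f)) := by
      intro c
      rw [← AdjoinRoot.algebraMap_eq,
        ← IsScalarTower.algebraMap_apply K'[X] (AdjoinRoot f) (FractionRing (AdjoinRoot f)),
        IsScalarTower.algebraMap_apply K'[X] (FractionRing K'[X]) (FractionRing (AdjoinRoot f))]
      exact IntermediateField.algebraMap_mem _ _
    induction b using AdjoinRoot.induction_on with
    | ih p =>
      induction p using Polynomial.induction_on' with
      | add p q hp hq => rw [map_add, map_add]; exact add_mem hp hq
      | monomial n a =>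
        rw [← C_mul_X_pow_eq_monomial, map_mul, map_pow, AdjoinRoot.mk_C, AdjoinRoot.mk_X,
          map_mul, map_pow]
        exact mul_mem (hB a) (pow_mem hr n)
  have hsep : Algebra.IsSeparable (FractionRing K[X]) (FractionRing (AdjoinRoot f)) :=
    Algebra.IsSeparable.trans (FractionRing K[X]) (FractionRing K'[X])
      (FractionRing (AdjoinRoot f))
  -- the generator
  obtain ⟨m, hm⟩ := exists_generator_sep K[X] (AdjoinRoot f)
  have hmi : IsIntegral K[X] m := Algebra.IsIntegral.isIntegral m
  set h : K[X][X] := minpoly K[X] m with hh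
  have hmin := minpoly.isIntegrallyClosed_eq_field_fractions (FractionRing K[X])
    (FractionRing (AdjoinRoot f)) hmi
  have hfdF : FiniteDimensional (FractionRing K[X]) (FractionRing (AdjoinRoot f)) := inferInstance
  have hhm : h.Monic := minpoly.monic hmi
  have hhi : Irreducible h := minpoly.irreducible hmi
  have hhs : (h.map (algebraMap K[X] (FractionRing K[X]))).Separable := by
    rw [← hmin]
    exact Algebra.IsSeparable.isSeparable (FractionRing K[X])
      (algebraMap (AdjoinRoot f) (FractionRing (AdjoinRoot f)) m)
  have hdeg : h.natDegree = finrank K K' * f.natDegree := by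
    have h1 := (Field.primitive_element_iff_minpoly_natDegree_eq (FractionRing K[X])
      (algebraMap (AdjoinRoot f) (FractionRing (AdjoinRoot f)) m)).mp hm
    rw [hmin, hhm.natDegree_map, IsFractionRing.finrank_eq K[X] (FractionRing K[X]) (AdjoinRoot f)
      (FractionRing (AdjoinRoot f)), ← finrank_mul_finrank' (R := K[X]) (S := K'[X]) (AdjoinRoot f),
      finrank_poly] at h1
    rw [h1, (AdjoinRoot.powerBasis' hfm).finrank, AdjoinRoot.powerBasis'_dim]
  obtain ⟨g', hg', hgg'⟩ := avoid (K := K) g hg
  obtain ⟨a, ha1, ha2⟩ := hK h hhm hhi hhs g' hg'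
  refine ⟨algebraMap K K' a, hgg' a ha1, ?_⟩
  -- specialisation
  set a' : K' := algebraMap K K' a with ha'
  set p : K'[X] := f.map (evalRingHom a') with hp
  have hpm : p.Monic := hfm.map _
  have hpd : p.natDegree = f.natDegree := hfm.natDegree_map _
  have hroot : f.eval₂ ((AdjoinRoot.of p).comp (evalRingHom a')) (AdjoinRoot.root p) = 0 := by
    rw [← eval₂_map]
    exact AdjoinRoot.eval₂_root p
  let ψ : AdjoinRoot f →+* AdjoinRoot p :=
    AdjoinRoot.lift ((AdjoinRoot.of p).comp (evalRingHom a')) (AdjoinRoot.root p) hroot
  have hψ : ψ.comp (algebraMap K[X] (AdjoinRoot f)) =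
      (algebraMap K (AdjoinRoot p)).comp (evalRingHom a) := by
    have e1 : ψ.comp (algebraMap K'[X] (AdjoinRoot f)) =
        (AdjoinRoot.of p).comp (evalRingHom a') := by
      ext x
      · exact AdjoinRoot.lift_of hroot
      · exact AdjoinRoot.lift_of hroot
    rw [IsScalarTower.algebraMap_eq K[X] K'[X] (AdjoinRoot f), ← RingHom.comp_assoc, e1,
      RingHom.comp_assoc, IsScalarTower.algebraMap_eq K K' (AdjoinRoot p), RingHom.comp_assoc]
    congr 1
    ext x
    · simp
    · simp [ha']
  have hγ : aeval (ψ m) (h.map (evalRingHom a)) = 0 := by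
    rw [aeval_def, eval₂_map, ← hψ, ← hom_eval₂]
    have h2 : eval₂ (algebraMap K[X] (AdjoinRoot f)) m h = 0 := minpoly.aeval K[X] m
    rw [h2, map_zero]
  refine irreducible_of_elem p hpm (by rw [hpd]; exact hfdeg) (h.map (evalRingHom a))
    (hhm.map _) ha2 (ψ m) hγ ?_
  rw [hhm.natDegree_map, hpd, hdeg]

end Pool.Agent.J6H30.SB
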