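import Pool.Agent.J6H30.SB.Hil2

/-!
The limit field of the tower.
-/

set_option autoImplicit false
set_option linter.unusedSectionVars false

namespace Pool.Agent.J6H30.SB

open Polynomial
open Pool.Agent.H391R2.T4 (HilbField)

theorem exists_le_of_iInf_le {G : Type} [Group G] [TopologicalSpace G] [CompactSpace G]
    [IsTopologicalGroup G] {s : ℕ → Subgroup G} (hs : Antitone s)
    (hso : ∀ n, IsOpen (s n : Set G)) {P : Subgroup G} (hP : IsOpen (P : Set G))
    (h : ⨅ j, s j ≤ P) : ∃ n, s n ≤ P := by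
  by_contra hne
  push Not at hne
  have hcl : ∀ n, IsClosed (s n : Set G) := fun n => Subgroup.isClosed_of_isOpen _ (hso n)
  have hPc : IsClosed (P : Set G)ᶜ := hP.isClosed_compl
  have h1 : (⋂ j, ((s j : Set G) ∩ (P : Set G)ᶜ)).Nonempty := by
    apply IsCompact.nonempty_iInter_of_sequence_nonempty_isCompact_isClosed
    · intro i
      exact Set.inter_subset_inter_left _ (hs (Nat.le_succ i))
    · intro i
      obtain ⟨x, hx, hx2⟩ := Set.not_subset.1 (hne i)
      exact ⟨x, hx, hx2⟩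
    · exact ((hcl 0).inter hPc).isCompact
    · intro i
      exact (hcl i).inter hPc
  obtain ⟨y, hy⟩ := h1
  have h2 : y ∈ ⨅ j, s j := by
    rw [Subgroup.mem_iInf]
    intro j
    exact (Set.mem_iInter.1 hy j).1
  exact (Set.mem_iInter.1 hy 0).2 (h h2)

section

variable {K Ω : Type} [Field K] [Field Ω] [Algebra K Ω] [IsSepClosed Ω]
  [Algebra.IsSeparable K Ω]

theorem mem_fixed_iff {H : Subgroup (Ω ≃ₐ[K] Ω)} {x : Ω} :
    x ∈ IntermediateField.fixedField H ↔ ∀ σ ∈ H, σ x = x :=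
  IntermediateField.mem_fixedField_iff H x

theorem exists_level {s : ℕ → Subgroup (Ω ≃ₐ[K] Ω)} (hs : Antitone s)
    (hso : ∀ n, IsOpen (s n : Set (Ω ≃ₐ[K] Ω))) (T : Set Ω) (hT : T.Finite)
    (hTF : ∀ x ∈ T, x ∈ IntermediateField.fixedField (⨅ j, s j)) :
    ∃ m, ∀ n ≥ m, ∀ x ∈ T, x ∈ IntermediateField.fixedField (s n) := by
  have hg : IsGalois K Ω := galΩ
  obtain ⟨m, hm⟩ := exists_le_of_iInf_le hs hso (open_adjoin (K := K) hT) (fun σ hσ =>
    fix_adjoin fun x hx => mem_fixed_iff.1 (hTF x hx) σ hσ)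
  refine ⟨m, fun n hn x hx => mem_fixed_iff.2 fun σ hσ => ?_⟩
  have h1 := hm (hs hn hσ)
  rw [IntermediateField.mem_fixingSubgroup_iff] at h1
  exact h1 x (IntermediateField.subset_adjoin _ _ hx)

theorem lift_level (E F : IntermediateField K Ω) (hEF : E ≤ F) (f : F[X][X]) (hfm : f.Monic)
    (hfi : Irreducible f) (hc : ∀ i j, algebraMap F Ω ((f.coeff i).coeff j) ∈ E) :
    ∃ f' : E[X][X], Irreducible f' ∧
      f'.map (mapRingHom (algebraMap E Ω)) = f.map (mapRingHom (algebraMap F Ω)) := by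
  obtain ⟨f', hf'⟩ : ∃ f' : E[X][X], f'.map (mapRingHom (algebraMap E Ω)) =
      f.map (mapRingHom (algebraMap F Ω)) := by
    rw [← Polynomial.mem_lifts, Polynomial.lifts_iff_coeff_lifts]
    intro i
    rw [Polynomial.coeff_map]
    have h1 : (mapRingHom (algebraMap F Ω)) (f.coeff i) ∈ Polynomial.lifts (algebraMap E Ω) := by
      rw [Polynomial.lifts_iff_coeff_lifts]
      intro j
      rw [coe_mapRingHom, Polynomial.coeff_map]
      exact ⟨⟨_, hc i j⟩, rfl⟩
    rw [Polynomial.mem_lifts] at h1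
    exact h1
  refine ⟨f', ?_, hf'⟩
  let ι : E →+* F := (IntermediateField.inclusion hEF).toRingHom
  have hι : (algebraMap F Ω).comp ι = algebraMap E Ω := rfl
  have h2 : f'.map (mapRingHom ι) = f := by
    apply Polynomial.map_injective (mapRingHom (algebraMap F Ω))
      (Polynomial.map_injective _ (algebraMap F Ω).injective)
    rw [Polynomial.map_map, Polynomial.mapRingHom_comp, hι, hf']
  have h3 : f'.Monic := by
    rw [← up_monic ι, h2]
    exact hfm
  refine Monic.irreducible_of_irreducible_map (mapRingHom ι) f' h3 ?_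
  rw [h2]
  exact hfi

theorem lim2 {Q : ℕ → Subgroup (Ω ≃ₐ[K] Ω)} [hQn : ∀ n, (Q n).Normal]
    (hQo : ∀ n, IsOpen (Q n : Set (Ω ≃ₐ[K] Ω)))
    {s : ℕ → Subgroup (Ω ≃ₐ[K] Ω)} (hs : Antitone s)
    (hso : ∀ n, IsOpen (s n : Set (Ω ≃ₐ[K] Ω)))
    (hd : ∀ (d : D2 Ω) (m : ℕ), (∀ n ≥ m, Pre2 d (s n)) →
      ∃ n ≥ m, ∃ k, Ach2 Q d (s n) k ∧ ∀ j, s n ≤ s j ⊔ Q k) :
    HilbField (IntermediateField.fixedField (⨅ j, s j)) := by
  intro f hfm hfi hfs g hg
  have hgΩ : IsGalois K Ω := galΩ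
  let F := IntermediateField.fixedField (⨅ j, s j)
  have hcl : IsClosed ((⨅ j, s j : Subgroup (Ω ≃ₐ[K] Ω)) : Set (Ω ≃ₐ[K] Ω)) := by
    rw [Subgroup.coe_iInf]
    exact isClosed_iInter fun n => Subgroup.isClosed_of_isOpen _ (hso n)
  have hfixF : F.fixingSubgroup = ⨅ j, s j := fix_fixed hcl
  have hle : ∀ n, IntermediateField.fixedField (s n) ≤ F := by
    intro n x hx
    rw [mem_fixed_iff] at hx ⊢
    intro σ hσ
    exact hx σ (Subgroup.mem_iInf.1 hσ n)
  let T : Set Ω := ⋃ i ∈ f.support, (fun j : ℕ =>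
    algebraMap F Ω ((f.coeff i).coeff j)) '' ((f.coeff i).support : Set ℕ)
  have hT : T.Finite := Set.Finite.biUnion (Finset.finite_toSet _) fun i _ => by
    exact (Finset.finite_toSet _).image _
  have hTF : ∀ x ∈ T, x ∈ IntermediateField.fixedField (⨅ j, s j) := by
    intro x hx
    rw [Set.mem_iUnion₂] at hx
    obtain ⟨i, -, j, -, rfl⟩ := hx
    exact ((f.coeff i).coeff j).2
  obtain ⟨m, hm⟩ := exists_level hs hso T hT hTF
  have hg0 : g.map (algebraMap F Ω) ≠ 0 := by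
    rw [Ne, Polynomial.map_eq_zero]
    exact hg
  have hpre : ∀ n ≥ m, Pre2 (K := K) (f.map (mapRingHom (algebraMap F Ω)),
      g.map (algebraMap F Ω)) (s n) := by
    intro n hn
    refine ⟨(up_monic _ _).2 hfm, (sepF_map _ _).2 hfs, hg0, ?_⟩
    refine lift_level (IntermediateField.fixedField (s n)) F (hle n) f hfm hfi fun i j => ?_
    by_cases h1 : (f.coeff i).coeff j = 0
    · rw [h1, map_zero]
      exact zero_mem _
    · apply hm n hn
      rw [Set.mem_iUnion₂]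
      refine ⟨i, ?_, j, ?_, rfl⟩
      · rw [Polynomial.mem_support_iff]
        intro h2
        rw [h2, Polynomial.coeff_zero] at h1
        exact h1 rfl
      · exact Finset.mem_coe.2 (Polynomial.mem_support_iff.2 h1)
  obtain ⟨n, -, k, ⟨a, ha, h1, h2, h3, h4⟩, h5⟩ := hd _ m hpre
  have h6 : s n ≤ (⨅ j, s j) ⊔ Q k := limit_le hs hso (hQo k) h5
  have h7 : (f.map (mapRingHom (algebraMap F Ω))).map (evalRingHom a) =
      (f.map (evalRingHom (⟨a, hle n ha⟩ : F))).map (algebraMap F Ω) :=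
    map_spec (algebraMap F Ω) f ⟨a, hle n ha⟩
  refine ⟨⟨a, hle n ha⟩, ?_, ?_⟩
  · intro h0
    apply h1
    have h8 : algebraMap F Ω ⟨a, hle n ha⟩ = a := rfl
    rw [← h8]
    change eval (algebraMap F Ω ⟨a, hle n ha⟩) (g.map (algebraMap F Ω)) = 0
    rw [Polynomial.eval_map_apply, h0, map_zero]
  · refine irr_of_trans F (f.map (evalRingHom (⟨a, hle n ha⟩ : F))) (hfm.map _) ?_ ?_ ?_
    · rw [hfm.natDegree_map]
      intro h0
      apply hfi.not_isUnit
      rw [hfm.natDegree_eq_zero.mp h0]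
      exact isUnit_one
    · rw [← h7]
      exact h2
    · intro x y hx hy
      rw [← eval_map_algebraMap, ← h7] at hx hy
      obtain ⟨σ, hσ, hxy⟩ := h3 x y hx hy
      have h8 : σ ∈ (((⨅ j, s j) ⊔ Q k : Subgroup (Ω ≃ₐ[K] Ω)) : Set (Ω ≃ₐ[K] Ω)) := h6 hσ
      rw [Subgroup.mul_normal] at h8
      obtain ⟨τ, hτ, q, hq, rfl⟩ := h8
      refine ⟨τ, by rw [hfixF]; exact hτ, ?_⟩
      have h9 : q x = x := h4 q hq x hx
      rw [← hxy]
      change τ x = τ (q x)
      rw [h9]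

end

end Pool.Agent.J6H30.SB
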