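import Pool.Agent.J6H30.SB.Tow

/-!
The step property for homomorphisms of a subgroup of finite index (induced homomorphisms).
-/

set_option autoImplicit false

namespace Pool.Agent.J6H30.SB

section mono

variable {G : Type} [Group G]

/-- the data of the monomial representation of `H` on `X × B`: permutations of the form
`(x, b) ↦ (p x, c x * b)` -/
def Mon (X B : Type) [Group B] : Subgroup (Equiv.Perm (X × B)) where
  carrier := {w | ∃ (p : Equiv.Perm X) (c : X → B), ∀ x b, w (x, b) = (p x, c x * b)}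
  one_mem' := ⟨1, fun _ => 1, fun x b => by simp⟩
  mul_mem' := by
    rintro w w' ⟨p, c, h⟩ ⟨p', c', h'⟩
    refine ⟨p * p', fun x => c (p' x) * c' x, fun x b => ?_⟩
    rw [Equiv.Perm.mul_apply, h', h]
    simp [mul_assoc]
  inv_mem' := by
    rintro w ⟨p, c, h⟩
    refine ⟨p⁻¹, fun x => (c (p⁻¹ x))⁻¹, fun x b => ?_⟩
    rw [Equiv.Perm.inv_eq_iff_eq, h]
    simp

/-- the underlying permutation of `X`, for a nonempty `B` -/
def pr {X B : Type} [Group B] (w : Mon X B) (x : X) : X := (w.1 (x, 1)).1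

/-- the underlying function `X → B` -/
def cf {X B : Type} [Group B] (w : Mon X B) (x : X) : B := (w.1 (x, 1)).2

theorem mon_apply {X B : Type} [Group B] (w : Mon X B) (x : X) (b : B) :
    w.1 (x, b) = (pr w x, cf w x * b) := by
  obtain ⟨p, c, h⟩ := w.2
  unfold pr cf
  rw [h x b, h x 1]
  simp

theorem mon_ext {X B : Type} [Group B] {w w' : Mon X B} (h1 : ∀ x, pr w x = pr w' x)
    (h2 : ∀ x, cf w x = cf w' x) : w = w' := by
  apply Subtype.ext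
  apply Equiv.ext
  rintro ⟨x, b⟩
  rw [mon_apply, mon_apply, h1, h2]

theorem pr_mul {X B : Type} [Group B] (w w' : Mon X B) (x : X) :
    pr (w * w') x = pr w (pr w' x) := by
  change (w.1 (w'.1 (x, 1))).1 = _
  rw [mon_apply w' x 1, mon_apply]

theorem cf_mul {X B : Type} [Group B] (w w' : Mon X B) (x : X) :
    cf (w * w') x = cf w (pr w' x) * cf w' x := by
  change (w.1 (w'.1 (x, 1))).2 = _
  rw [mon_apply w' x 1, mon_apply]
  simp

theorem pr_one {X B : Type} [Group B] (x : X) : pr (1 : Mon X B) x = x := rfl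

theorem cf_one {X B : Type} [Group B] (x : X) : cf (1 : Mon X B) x = 1 := rfl

theorem pr_inv {X B : Type} [Group B] (w : Mon X B) (x : X) : pr w⁻¹ (pr w x) = x := by
  rw [← pr_mul, inv_mul_cancel, pr_one]

theorem pr_inv' {X B : Type} [Group B] (w : Mon X B) (x : X) : pr w (pr w⁻¹ x) = x := by
  rw [← pr_mul, mul_inv_cancel, pr_one]

theorem cf_inv {X B : Type} [Group B] (w : Mon X B) (x : X) :
    cf w⁻¹ x = (cf w (pr w⁻¹ x))⁻¹ := by
  have h := cf_mul w w⁻¹ x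
  rw [mul_inv_cancel, cf_one] at h
  exact (inv_eq_of_mul_eq_one_right h.symm).symm

/-- make an element from a permutation and a function -/
def mk {X B : Type} [Group B] (p : Equiv.Perm X) (c : X → B) : Mon X B :=
  ⟨{ toFun := fun z => (p z.1, c z.1 * z.2)
     invFun := fun z => (p.symm z.1, (c (p.symm z.1))⁻¹ * z.2)
     left_inv := fun z => by simp
     right_inv := fun z => by simp }, p, c, fun x b => rfl⟩

theorem pr_mk {X B : Type} [Group B] (p : Equiv.Perm X) (c : X → B) (x : X) :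
    pr (mk p c) x = p x := rfl

theorem cf_mk {X B : Type} [Group B] (p : Equiv.Perm X) (c : X → B) (x : X) :
    cf (mk p c) x = c x := by
  change c x * 1 = c x
  rw [mul_one]

end mono

section ind

variable {G : Type} [Group G] [TopologicalSpace G]

/-- The step property for homomorphisms of a subgroup of finite index. -/
theorem SP.sub {H : Subgroup G} (hH : SP H) (V : Subgroup G) (hV : IsOpen (V : Set G))
    [hfin : Finite (H ⧸ (V.subgroupOf H))] [IsTopologicalGroup G]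
    (B : Type) [Group B] [Finite B] (N : Subgroup B) [hN : N.Normal] (ψ : G → B)
    (hψ : MulOn ψ (V ⊓ H)) (ht : Triv ψ (V ⊓ H)) (hon : ∀ b, ∃ x ∈ V ⊓ H, b * (ψ x)⁻¹ ∈ N)
    (R : Subgroup G) (hRn : R.Normal) (hR : IsOpen (R : Set G)) (hRV : R ≤ V)
    (hRψ : ∀ x ∈ R, x ∈ H → ψ x = 1)
    (P : Subgroup G) (hP : IsOpen (P : Set G)) :
    ∃ n₀ : ℕ, ∀ n ≥ n₀, ∃ (U : Subgroup G) (ψ' : G → B), U ≤ H ∧ IsOpen (U : Set G) ∧
      U.relIndex H = n ∧ H ≤ U ⊔ P ∧ MulOn ψ' (V ⊓ U) ∧ Triv ψ' (V ⊓ U) ∧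
      (∀ b, ∃ x ∈ V ⊓ U, ψ' x = b) ∧ ∀ x ∈ V ⊓ U, ψ' x * (ψ x)⁻¹ ∈ N := by
  classical
  let X : Type := H ⧸ (V.subgroupOf H)
  let x₀ : X := ((1 : H) : H ⧸ (V.subgroupOf H))
  -- a section
  obtain ⟨t, ht0, ht1⟩ : ∃ t : X → H, (∀ x, ((t x : H) : H ⧸ (V.subgroupOf H)) = x) ∧ t x₀ = 1 := by
    let t0 : X → H := fun x => Quotient.out x
    have h0 : ∀ x, ((t0 x : H) : H ⧸ (V.subgroupOf H)) = x := fun x => Quotient.out_eq' x
    refine ⟨Function.update t0 x₀ 1, fun x => ?_, Function.update_self _ _ _⟩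
    by_cases hx : x = x₀
    · subst hx
      rw [Function.update_self]
    · rw [Function.update_of_ne hx]
      exact h0 x
  -- the cocycle
  let v : H → X → H := fun σ x => (t (σ • x))⁻¹ * σ * t x
  have hv : ∀ σ x, ((v σ x : H) : G) ∈ V ⊓ H := by
    intro σ x
    refine ⟨?_, (v σ x).2⟩
    have h1 : (((t (σ • x)) : H) : H ⧸ (V.subgroupOf H)) = ((σ * t x : H) : H ⧸ (V.subgroupOf H)) := by
      rw [ht0]
      conv_lhs => rw [← ht0 x]
      rfl
    rw [QuotientGroup.eq] at h1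
    have h2 : (t (σ • x))⁻¹ * (σ * t x) ∈ V.subgroupOf H := h1
    rw [Subgroup.mem_subgroupOf] at h2
    change ((((t (σ • x))⁻¹ * σ * t x : H)) : G) ∈ V
    rw [mul_assoc]
    exact h2
  have hvmul : ∀ σ τ x, v (σ * τ) x = v σ (τ • x) * v τ x := by
    intro σ τ x
    change (t ((σ * τ) • x))⁻¹ * (σ * τ) * t x =
      ((t (σ • τ • x))⁻¹ * σ * t (τ • x)) * ((t (τ • x))⁻¹ * τ * t x)
    rw [mul_smul]
    group
  -- the induced homomorphism
  let I : H → Mon X B := fun σ => mk (MulAction.toPermHom H X σ) fun x => ψ (v σ x)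
  have hIpr : ∀ σ x, pr (I σ) x = σ • x := fun σ x => rfl
  have hIcf : ∀ σ x, cf (I σ) x = ψ (v σ x) := fun σ x => cf_mk _ _ _
  have hImul : ∀ σ τ, I (σ * τ) = I σ * I τ := by
    intro σ τ
    apply mon_ext
    · intro x
      rw [pr_mul, hIpr, hIpr, hIpr, mul_smul]
    · intro x
      rw [cf_mul, hIcf, hIcf, hIcf, hIpr, hvmul]
      exact hψ _ (hv _ _) _ (hv _ _)
  let Ih : H →* Mon X B := MonoidHom.mk' I hImul
  -- the group
  let N1 : Subgroup (Mon X B) :=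
    { carrier := {w | ∀ x, pr w x = x ∧ cf w x ∈ N}
      one_mem' := fun x => ⟨rfl, N.one_mem⟩
      mul_mem' := by
        intro w w' h h' x
        rw [pr_mul, cf_mul, (h' x).1]
        exact ⟨(h x).1, N.mul_mem (h x).2 (h' x).2⟩
      inv_mem' := by
        intro w h x
        have h1 : pr w⁻¹ x = x := by
          conv_lhs => rw [← (h x).1]
          exact pr_inv w x
        refine ⟨h1, ?_⟩
        rw [cf_inv, h1]
        exact N.inv_mem (h x).2 }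
  have hN1 : ∀ w, w ∈ N1 ↔ ∀ x, pr w x = x ∧ cf w x ∈ N := fun w => Iff.rfl
  have hN1n : N1.Normal := by
    refine ⟨fun w hw g => ?_⟩
    rw [hN1]
    intro x
    have h1 : pr (g * w * g⁻¹) x = x := by
      rw [pr_mul, pr_mul, ((hN1 w).1 hw _).1, pr_inv']
    refine ⟨h1, ?_⟩
    rw [cf_mul, cf_mul, ((hN1 w).1 hw _).1, cf_inv]
    exact hN.conj_mem _ ((hN1 w).1 hw _).2 _
  let B2 : Subgroup (Mon X B) := N1 ⊔ Ih.range
  let N2 : Subgroup B2 := N1.subgroupOf B2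
  have hN2n : N2.Normal := hN1n.subgroupOf B2
  have hfinP : Finite (Equiv.Perm (X × B)) := inferInstance
  have hfinM : Finite (Mon X B) := inferInstance
  have hfinB2 : Finite B2 := inferInstance
  have hIB : ∀ σ : H, I σ ∈ B2 := fun σ => Subgroup.mem_sup_right ⟨σ, rfl⟩
  let ψ2 : G → B2 := fun g => if h : g ∈ H then ⟨I ⟨g, h⟩, hIB _⟩ else 1
  have hψ2 : ∀ (g : G) (h : g ∈ H), ψ2 g = ⟨I ⟨g, h⟩, hIB _⟩ := fun g h => dif_pos h
  have hm2 : MulOn ψ2 H := by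
    intro x hx y hy
    rw [hψ2 x hx, hψ2 y hy, hψ2 _ (H.mul_mem hx hy)]
    apply Subtype.ext
    exact hImul ⟨x, hx⟩ ⟨y, hy⟩
  have ht2 : Triv ψ2 H := by
    refine ⟨R, hR, fun x hx hxH => ?_⟩
    rw [hψ2 x hxH]
    apply Subtype.ext
    have hfix : ∀ y : X, (⟨x, hxH⟩ : H) • y = y := by
      intro y
      conv_lhs => rw [← ht0 y]
      conv_rhs => rw [← ht0 y]
      change (((⟨x, hxH⟩ : H) * t y : H) : H ⧸ (V.subgroupOf H)) = _
      rw [eq_comm, QuotientGroup.eq, Subgroup.mem_subgroupOf]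
      apply hRV
      have h3 := hRn.conj_mem x hx ((t y : G)⁻¹)
      simpa [mul_assoc] using h3
    apply mon_ext
    · intro y
      rw [hIpr, hfix]
      rfl
    · intro y
      rw [hIcf]
      change ψ (((t ((⟨x, hxH⟩ : H) • y))⁻¹ * ⟨x, hxH⟩ * t y : H) : G) = 1
      apply hRψ
      · rw [hfix]
        have h3 := hRn.conj_mem x hx ((t y : G)⁻¹)
        simpa [mul_assoc] using h3
      · exact Subtype.mem _
  have hon2 : ∀ b : B2, ∃ x ∈ H, b * (ψ2 x)⁻¹ ∈ N2 := by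
    rintro ⟨b, hb⟩
    have hb' : b ∈ ((N1 ⊔ Ih.range : Subgroup (Mon X B)) : Set (Mon X B)) := hb
    rw [Subgroup.normal_mul] at hb'
    obtain ⟨ν, hν, w, ⟨σ, rfl⟩, rfl⟩ := hb'
    refine ⟨σ, σ.2, ?_⟩
    rw [hψ2 σ σ.2, Subgroup.mem_subgroupOf]
    change ν * I σ * (I σ)⁻¹ ∈ N1
    rw [mul_inv_cancel_right]
    exact hν
  obtain ⟨n₀, hn₀⟩ := hH B2 N2 ψ2 hm2 ht2 hon2 P hP
  refine ⟨n₀, fun n hn => ?_⟩
  obtain ⟨U, φ, h1, h2, h3, h4, h5, ⟨R', hR', h6⟩, h7, h8⟩ := hn₀ n hn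
  -- the action on `X`
  have hact : ∀ (u : G) (hu : u ∈ U) (x : X),
      ∃ ν ∈ N, pr (φ u).1 x = (⟨u, h1 hu⟩ : H) • x ∧
        cf (φ u).1 x = ν * ψ (v ⟨u, h1 hu⟩ x) := by
    intro u hu x
    have h9 := h8 u hu
    rw [hψ2 u (h1 hu), Subgroup.mem_subgroupOf] at h9
    have h10 : (φ u).1 * (I ⟨u, h1 hu⟩)⁻¹ ∈ N1 := h9
    set ν : Mon X B := (φ u).1 * (I ⟨u, h1 hu⟩)⁻¹ with hνd
    have h11 : (φ u).1 = ν * I ⟨u, h1 hu⟩ := by
      rw [hνd, inv_mul_cancel_right]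
    refine ⟨cf ν ((⟨u, h1 hu⟩ : H) • x), ((hN1 ν).1 h10 _).2, ?_, ?_⟩
    · rw [h11, pr_mul, hIpr, ((hN1 ν).1 h10 _).1]
    · rw [h11, cf_mul, hIpr, hIcf]
  have hx0 : ∀ (u : G) (hu : u ∈ H), u ∈ V ↔ (⟨u, hu⟩ : H) • x₀ = x₀ := by
    intro u hu
    have : (⟨u, hu⟩ : H) • x₀ = (((⟨u, hu⟩ : H) * 1 : H) : H ⧸ (V.subgroupOf H)) := rfl
    rw [this, mul_one, eq_comm, QuotientGroup.eq, Subgroup.mem_subgroupOf]
    simp
  have hv0 : ∀ (u : G) (hu : u ∈ H), u ∈ V → ((v ⟨u, hu⟩ x₀ : H) : G) = u := by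
    intro u hu huV
    change (((t ((⟨u, hu⟩ : H) • x₀))⁻¹ * ⟨u, hu⟩ * t x₀ : H) : G) = u
    rw [(hx0 u hu).1 huV, ht1]
    simp
  refine ⟨U, fun g => cf (φ g).1 x₀, h1, h2, h3, h4, ?_, ?_, ?_, ?_⟩
  · intro x hx y hy
    change cf (φ (x * y)).1 x₀ = cf (φ x).1 x₀ * cf (φ y).1 x₀
    rw [h5 x hx.2 y hy.2]
    change cf ((φ x).1 * (φ y).1) x₀ = _
    rw [cf_mul]
    obtain ⟨-, -, h9, -⟩ := hact y hy.2 x₀
    rw [h9, (hx0 y (h1 hy.2)).1 hy.1]
  · refine ⟨R', hR', fun x hx hxV => ?_⟩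
    change cf (φ x).1 x₀ = 1
    rw [h6 x hx hxV.2]
    rfl
  · intro b
    obtain ⟨y, hy, hyb⟩ := hon b
    let ν : Mon X B := mk 1 fun x => if x = x₀ then b * (ψ y)⁻¹ else 1
    have hν : ν ∈ N1 := by
      intro x
      refine ⟨rfl, ?_⟩
      change cf (mk 1 fun x => if x = x₀ then b * (ψ y)⁻¹ else 1) x ∈ N
      rw [cf_mk]
      split_ifs
      · exact hyb
      · exact N.one_mem
    obtain ⟨u, hu, hub⟩ := h7 ⟨ν * I ⟨y, hy.2⟩, Subgroup.mul_mem _ (Subgroup.mem_sup_left hν)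
      (hIB _)⟩
    have hpr : pr (φ u).1 x₀ = x₀ := by
      rw [hub]
      change pr (ν * I ⟨y, hy.2⟩) x₀ = x₀
      rw [pr_mul, hIpr, (hx0 y hy.2).1 hy.1]
      rfl
    obtain ⟨-, -, h9, -⟩ := hact u hu x₀
    have huV : u ∈ V := (hx0 u (h1 hu)).2 (h9.symm.trans hpr)
    refine ⟨u, ⟨huV, hu⟩, ?_⟩
    change cf (φ u).1 x₀ = b
    rw [hub]
    change cf (ν * I ⟨y, hy.2⟩) x₀ = b
    rw [cf_mul, hIpr, (hx0 y hy.2).1 hy.1, hIcf, hv0 y hy.2 hy.1]
    change cf (mk 1 fun x => if x = x₀ then b * (ψ y)⁻¹ else 1) x₀ * ψ y = b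
    rw [cf_mk, if_pos rfl, inv_mul_cancel_right]
  · intro x hx
    obtain ⟨ν, hν, -, h9⟩ := hact x hx.2 x₀
    change cf (φ x).1 x₀ * (ψ x)⁻¹ ∈ N
    rw [h9, hv0 x (h1 hx.2) hx.1, mul_inv_cancel_right]
    exact hν

end ind

end Pool.Agent.J6H30.SB
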