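import Pool.Agent.TH377.IG.HilbFin

/-!
Solutions after an extension of every large degree, over a Hilbertian field of any characteristic.
-/

set_option autoImplicit false

namespace Pool.Agent.J6H30.SB

open Pool.Agent.H391R2.T4 (HilbField WeakSol SolOver SolDeg sym_degree RegSol SymEP symProj)

theorem hilb_sol {K L H : Type} [Field K] [Field L] [Algebra K L] [FiniteDimensional K L]
    [IsGalois K L] [Group H] [Finite H] (hK : HilbField K) (α : H →* (L ≃ₐ[K] L))
    (hreg : RegSol K L H α) : SolOver K L H α K False := by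
  obtain ⟨F, i1, i2, i3, i4, i5, γ, -, hγ⟩ := Pool.Agent.TH377.IG.inf_hilb hK L Unit
    (fun _ => H) (fun _ => α) (fun _ => hreg)
  let e : Pool.Agent.TH377.IG.FPI (fun _ : Unit => α) ≃* H :=
    { toFun := fun p => p.1.1 ()
      invFun := fun h => ⟨(fun _ => h, α h), fun _ => rfl⟩
      left_inv := fun p => Subtype.ext (Prod.ext rfl (p.2 ()))
      right_inv := fun h => rfl
      map_mul' := fun p q => rfl }
  have he : ∀ p, α (e p) = p.1.2 := fun p => p.2 ()
  have hfin : Finite (F ≃ₐ[K] F) := Finite.of_equiv _ (γ.trans e).symm.toEquiv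
  have hfd : FiniteDimensional K F := IsGalois.finiteDimensional_of_finite K F
  refine ⟨F, i1, i2, i3, i2, inferInstance, i4, hfd, i5, γ.trans e, fun σ x => ?_,
    fun h => h.elim⟩
  rw [hγ]
  congr 2
  exact (he (γ σ)).symm

theorem weak_split (K L E : Type) [Field K] [Field L] [Algebra K L]
    [FiniteDimensional K L] [IsGalois K L] [Group E]
    (α : E →* (L ≃ₐ[K] L)) (s : (L ≃ₐ[K] L) →* E) (hs : ∀ ρ, α (s ρ) = ρ) : WeakSol K L E α := by
  refine ⟨L, inferInstance, inferInstance, inferInstance, inferInstance, inferInstance,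
    inferInstance, s, fun ρ => ?_⟩
  rw [hs]
  apply AlgEquiv.ext
  intro x
  have h1 := AlgEquiv.restrictNormal_commutes ρ L x
  exact h1.symm

theorem hil_unif (K L E : Type) [Field K] [Field L] [Algebra K L]
    [FiniteDimensional K L] [IsGalois K L] [Group E] [Finite E]
    (α : E →* (L ≃ₐ[K] L)) (hK : HilbField K) (hw : WeakSol K L E α) (n : ℕ)
    (hn : ((3 * Nat.card α.ker + 2).factorial) ^ 3 ≤ n) :
    ∃ (M : Type) (_ : Field M) (_ : Algebra K M) (_ : IsGalois K M)
      (ψ : (M ≃ₐ[K] M) ≃* Equiv.Perm (Fin n)) (i : Fin n),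
      SolOver K L E α (IntermediateField.fixedField
        ((MulAction.stabilizer (Equiv.Perm (Fin n)) i).comap ψ.toMonoidHom)) False := by
  have h0 : 0 < n := lt_of_lt_of_le (pow_pos (Nat.factorial_pos _) _) hn
  have hfin : Finite (SymEP α n) := by
    have hf : Finite (Pool.Agent.H391R2.Wr E n) :=
      Finite.of_equiv _ SemidirectProduct.equivProd.symm
    infer_instance
  have h1 := hilb_sol hK (symProj α n) (Pool.Agent.TH59.WX.reg_sym_unif K L E α hw n hn)
  obtain ⟨M, a1, a2, a3, ψ, a4, a5, h2⟩ := sym_degree α n ⟨0, h0⟩ False h1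
  have haM : a4 = a2 := by
    refine Algebra.algebra_ext _ _ fun r => ?_
    have h1 := @IsScalarTower.algebraMap_apply K K M _ _ _ _ a2 a4 a5 r
    exact h1
  subst haM
  exact ⟨M, a1, a4, a3, ψ, ⟨0, h0⟩, h2⟩

end Pool.Agent.J6H30.SB
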