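import Pool.Agent.J6H30.SB.Tow
import Pool.Agent.J6H30.SB.Unif

/-!
The step over a Hilbertian field, in terms of the absolute Galois group.
-/

set_option autoImplicit false

namespace Pool.Agent.J6H30.SB

open Pool.Agent.H391R2.T4 (HilbField WeakSol SolOver SolDeg)

section

variable {k Ω : Type} [Field k] [Field Ω] [Algebra k Ω] [IsSepClosed Ω]
  [Algebra.IsSeparable k Ω]

theorem galΩ : IsGalois k Ω := by
  have : IsSepClosure k Ω := ⟨inferInstance, inferInstance⟩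
  infer_instance

/-- an open subgroup contains the fixing subgroup of a finite Galois extension -/
theorem exists_fix {P : Subgroup (Ω ≃ₐ[k] Ω)} (hP : IsOpen (P : Set (Ω ≃ₐ[k] Ω))) :
    ∃ L : IntermediateField k Ω, FiniteDimensional k L ∧ IsGalois k L ∧
      L.fixingSubgroup ≤ P := by
  have h1 : (P : Set (Ω ≃ₐ[k] Ω)) ∈ nhds 1 := hP.mem_nhds P.one_mem
  have hg : IsGalois k Ω := galΩ
  obtain ⟨L, h2, h3, h4⟩ := (krullTopology_mem_nhds_one_iff_of_normal k Ω _).1 h1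
  exact ⟨L, h2, ⟨⟩, h4⟩

/-- a proper solution over an extension `T` of degree `n` in terms of the Galois group -/
theorem of_sol (L : IntermediateField k Ω) [FiniteDimensional k L] [IsGalois k L]
    (H₁ : Type) [Group H₁] (π : H₁ →* (L ≃ₐ[k] L)) (T : Type) [Field T] [Algebra k T]
    [FiniteDimensional k T] [Algebra.IsSeparable k T] (h : SolOver k L H₁ π T False) :
    ∃ (U : Subgroup (Ω ≃ₐ[k] Ω)) (Φ : U →* H₁), IsOpen (U : Set (Ω ≃ₐ[k] Ω)) ∧
      U.index = Module.finrank k T ∧ Function.Surjective Φ ∧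
      (∃ R : Subgroup (Ω ≃ₐ[k] Ω), IsOpen (R : Set (Ω ≃ₐ[k] Ω)) ∧
        ∀ x : U, x.1 ∈ R → Φ x = 1) ∧
      ∀ (x : U) (l : L), ((π (Φ x) l : L) : Ω) = x.1 (l : Ω) := by
  classical
  obtain ⟨F, iF, aTF, aLF, aKF, t1, t2, fd, gal, γ, hγ, -⟩ := h
  have hgΩ : IsGalois k Ω := galΩ
  have hkF : FiniteDimensional k F := FiniteDimensional.trans k T F
  have hskF : Algebra.IsSeparable k F := Algebra.IsSeparable.trans k T F
  have hLF : Algebra.IsSeparable L F := Algebra.isSeparable_tower_top_of_isSeparable k L F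
  let j : F →ₐ[L] Ω := IsSepClosed.lift
  have hjk : ∀ x : k, j (algebraMap k F x) = algebraMap k Ω x := by
    intro x
    rw [IsScalarTower.algebraMap_apply k L F, j.commutes]
    rfl
  let jk : F →ₐ[k] Ω := { j.toRingHom with commutes' := hjk }
  have hjk' : ∀ x, jk x = j x := fun x => rfl
  let jT : T →ₐ[k] Ω := jk.comp (IsScalarTower.toAlgHom k T F)
  have hjT : ∀ x : T, jT x = j (algebraMap T F x) := fun x => rfl
  let T' : IntermediateField k Ω := jT.fieldRange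
  let F' : IntermediateField k Ω := jk.fieldRange
  have hT'fd : FiniteDimensional k T' := LinearEquiv.finiteDimensional
    (AlgEquiv.ofInjectiveField jT).toLinearEquiv
  have hF'fd : FiniteDimensional k F' := LinearEquiv.finiteDimensional
    (AlgEquiv.ofInjectiveField jk).toLinearEquiv
  have hT'n : Module.finrank k T' = Module.finrank k T :=
    (AlgEquiv.ofInjectiveField jT).toLinearEquiv.finrank_eq.symm
  -- `Ω` over `T`
  let aFΩ : Algebra F Ω := j.toRingHom.toAlgebra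
  let aTΩ : Algebra T Ω := (j.toRingHom.comp (algebraMap T F)).toAlgebra
  have tTF : IsScalarTower T F Ω := IsScalarTower.of_algebraMap_eq fun _ => rfl
  have tkT : IsScalarTower k T Ω := IsScalarTower.of_algebraMap_eq fun x => by
    change algebraMap k Ω x = j (algebraMap T F (algebraMap k T x))
    rw [← IsScalarTower.algebraMap_apply, hjk]
  have hTalg : Algebra.IsSeparable T Ω := Algebra.isSeparable_tower_top_of_isSeparable k T Ω
  have hgT : IsGalois T Ω := galΩ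
  let up : T'.fixingSubgroup →* (Ω ≃ₐ[T] Ω) :=
    { toFun := fun u => AlgEquiv.ofRingEquiv (f := u.1.toRingEquiv) fun t => by
        have h1 := (IntermediateField.mem_fixingSubgroup_iff _ _).1 u.2 (jT t) ⟨t, rfl⟩
        exact h1
      map_one' := by ext; rfl
      map_mul' := fun a b => by ext; rfl }
  have hup : ∀ (u : T'.fixingSubgroup) (x : Ω), up u x = u.1 x := fun u x => rfl
  let rF : (Ω ≃ₐ[T] Ω) →* (F ≃ₐ[T] F) := AlgEquiv.restrictNormalHom F
  have hrF : ∀ (χ : Ω ≃ₐ[T] Ω) (x : F), j (rF χ x) = χ (j x) := fun χ x =>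
    AlgEquiv.restrictNormal_commutes χ F x
  have hrFs : Function.Surjective rF := AlgEquiv.restrictNormalHom_surjective Ω
  let Φ : T'.fixingSubgroup →* H₁ := (γ.toMonoidHom.comp rF).comp up
  have hΦ : ∀ u, Φ u = γ (rF (up u)) := fun u => rfl
  refine ⟨T'.fixingSubgroup, Φ, IntermediateField.fixingSubgroup_isOpen T', ?_, ?_, ?_, ?_⟩
  · rw [← IntermediateField.finrank_eq_fixingSubgroup_index, hT'n]
  · intro z
    obtain ⟨χ, hχ⟩ := hrFs (γ.symm z)
    have hmem : (χ.restrictScalars k) ∈ T'.fixingSubgroup := by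
      rw [IntermediateField.mem_fixingSubgroup_iff]
      rintro _ ⟨t, rfl⟩
      exact χ.commutes t
    refine ⟨⟨χ.restrictScalars k, hmem⟩, ?_⟩
    have h1 : up ⟨χ.restrictScalars k, hmem⟩ = χ := by ext; rfl
    rw [hΦ, h1, hχ, MulEquiv.apply_symm_apply]
  · refine ⟨F'.fixingSubgroup, IntermediateField.fixingSubgroup_isOpen F', fun u hu => ?_⟩
    have h1 : rF (up u) = 1 := by
      ext x
      apply j.toRingHom.injective
      change j (rF (up u) x) = j x
      rw [hrF, hup]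
      exact (IntermediateField.mem_fixingSubgroup_iff _ _).1 hu (jk x) ⟨x, rfl⟩
    rw [hΦ, h1, map_one]
  · intro u x
    have h1 := hγ (rF (up u)) x
    have h2 := congrArg j h1
    rw [hrF, j.commutes, j.commutes, hup] at h2
    exact h2.symm

theorem step0 (hk : HilbField k) (B : Type) [Group B] [Finite B] (N : Subgroup B) [hN : N.Normal]
    (ψ : (Ω ≃ₐ[k] Ω) →* B) (hψ : IsOpen (ψ.ker : Set (Ω ≃ₐ[k] Ω)))
    (hon : ∀ b, ∃ σ, b * (ψ σ)⁻¹ ∈ N) (P : Subgroup (Ω ≃ₐ[k] Ω))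
    (hP : IsOpen (P : Set (Ω ≃ₐ[k] Ω))) :
    ∃ n₀ : ℕ, ∀ n ≥ n₀, ∃ (U : Subgroup (Ω ≃ₐ[k] Ω)) (ψ' : U →* B),
      IsOpen (U : Set (Ω ≃ₐ[k] Ω)) ∧ U.index = n ∧ (⊤ : Subgroup (Ω ≃ₐ[k] Ω)) ≤ U ⊔ P ∧
      Function.Surjective ψ' ∧ (∃ R : Subgroup (Ω ≃ₐ[k] Ω), IsOpen (R : Set (Ω ≃ₐ[k] Ω)) ∧
        ∀ x : U, x.1 ∈ R → ψ' x = 1) ∧ ∀ x : U, ψ' x * (ψ x)⁻¹ ∈ N := by
  classical
  have hgΩ : IsGalois k Ω := galΩ
  obtain ⟨L, hLf, hLg, hLP⟩ := exists_fix (k := k) (Ω := Ω) (P := P ⊓ ψ.ker) (by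
    rw [Subgroup.coe_inf]; exact hP.inter hψ)
  let res : (Ω ≃ₐ[k] Ω) →* (L ≃ₐ[k] L) := AlgEquiv.restrictNormalHom L
  have hres : Function.Surjective res := AlgEquiv.restrictNormalHom_surjective Ω
  have hker : res.ker = L.fixingSubgroup := IntermediateField.restrictNormalHom_ker L
  have hle : res.ker ≤ ψ.ker := by
    rw [hker]
    exact hLP.trans inf_le_right
  let ψb : (L ≃ₐ[k] L) →* B := MonoidHom.liftOfSurjective res hres ⟨ψ, hle⟩
  have hψb : ∀ σ, ψb (res σ) = ψ σ := fun σ =>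
    MonoidHom.liftOfRightInverse_comp_apply res _ _ ⟨ψ, hle⟩ σ
  -- the split embedding problem
  let H₁ : Subgroup (B × (L ≃ₐ[k] L)) :=
    { carrier := {z | z.1 * (ψb z.2)⁻¹ ∈ N}
      one_mem' := by
        change (1 : B) * (ψb 1)⁻¹ ∈ N
        rw [map_one, inv_one, mul_one]
        exact N.one_mem
      mul_mem' := by
        rintro ⟨b, g⟩ ⟨b', g'⟩ h h'
        change (b * b') * (ψb (g * g'))⁻¹ ∈ N
        have h : b * (ψb g)⁻¹ ∈ N := h
        have h' : b' * (ψb g')⁻¹ ∈ N := h'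
        have h2 := hN.conj_mem _ h' b
        have h3 := N.mul_mem h2 h
        have h4 : b * (b' * (ψb g')⁻¹) * b⁻¹ * (b * (ψb g)⁻¹) = b * b' * (ψb (g * g'))⁻¹ := by
          rw [map_mul, mul_inv_rev]
          group
        rwa [h4] at h3
      inv_mem' := by
        rintro ⟨b, g⟩ h
        change b⁻¹ * (ψb g⁻¹)⁻¹ ∈ N
        have h : b * (ψb g)⁻¹ ∈ N := h
        have h2 := hN.conj_mem _ (N.inv_mem h) b⁻¹
        have h4 : b⁻¹ * (b * (ψb g)⁻¹)⁻¹ * b⁻¹⁻¹ = b⁻¹ * (ψb g⁻¹)⁻¹ := by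
          rw [map_inv]
          group
        rwa [h4] at h2 }
  have hH₁ : ∀ z : B × (L ≃ₐ[k] L), z ∈ H₁ ↔ z.1 * (ψb z.2)⁻¹ ∈ N := fun z => Iff.rfl
  let π : H₁ →* (L ≃ₐ[k] L) := (MonoidHom.snd B (L ≃ₐ[k] L)).comp H₁.subtype
  let s : (L ≃ₐ[k] L) →* H₁ :=
    { toFun := fun g => ⟨(ψb g, g), by
        rw [hH₁]
        change ψb g * (ψb g)⁻¹ ∈ N
        rw [mul_inv_cancel]
        exact N.one_mem⟩
      map_one' := Subtype.ext (by
        change (ψb 1, (1 : L ≃ₐ[k] L)) = 1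
        rw [map_one]; rfl)
      map_mul' := fun g g' => Subtype.ext (by
        change (ψb (g * g'), g * g') = (ψb g, g) * (ψb g', g')
        rw [map_mul]; rfl) }
  have hfL : Finite (L ≃ₐ[k] L) := inferInstance
  have hfH : Finite H₁ := inferInstance
  have hw : WeakSol k L H₁ π := weak_split k L H₁ π s fun ρ => rfl
  refine ⟨((3 * Nat.card π.ker + 2).factorial) ^ 3, fun n hn => ?_⟩
  obtain ⟨M, iM, aM, galM, ϕ, i, hsol⟩ := hil_unif k L H₁ π hk hw n hn
  have hfinG : Finite (M ≃ₐ[k] M) := Finite.of_equiv _ ϕ.symm.toEquiv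
  have hMfd : FiniteDimensional k M := IsGalois.finiteDimensional_of_finite k M
  have hTn : Module.finrank k (IntermediateField.fixedField
      ((MulAction.stabilizer (Equiv.Perm (Fin n)) i).comap ϕ.toMonoidHom)) = n := by
    rw [IntermediateField.finrank_eq_fixingSubgroup_index,
      IntermediateField.fixingSubgroup_fixedField,
      Subgroup.index_comap_of_surjective _ ϕ.surjective,
      MulAction.index_stabilizer_of_transitive, Nat.card_eq_fintype_card, Fintype.card_fin]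
  obtain ⟨U, Φ, hU, hUn, hΦs, ⟨R, hR, hR1⟩, hΦL⟩ := of_sol L H₁ π _ hsol
  have hΦ2 : ∀ u : U, (Φ u).1.2 = res u.1 := by
    intro u
    ext x
    have h3 : ((res u.1 x : L) : Ω) = u.1 (x : Ω) := AlgEquiv.restrictNormal_commutes u.1 L x
    rw [h3]
    exact hΦL u x
  refine ⟨U, ((MonoidHom.fst B (L ≃ₐ[k] L)).comp H₁.subtype).comp Φ, hU, hUn.trans hTn,
    ?_, ?_, ⟨R, hR, fun x hx => ?_⟩, ?_⟩
  · intro g _
    obtain ⟨u, hu⟩ := hΦs (s (res g))
    have h1 : res u.1 = res g := by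
      rw [← hΦ2, hu]
      rfl
    have h2 : u.1⁻¹ * g ∈ P := by
      have h3 : u.1⁻¹ * g ∈ res.ker := by
        rw [MonoidHom.mem_ker, map_mul, map_inv, h1, inv_mul_cancel]
      rw [hker] at h3
      exact (hLP h3).1
    have h3 : g = u.1 * (u.1⁻¹ * g) := by group
    rw [h3]
    exact Subgroup.mul_mem_sup u.2 h2
  · intro b
    obtain ⟨σ, hσ⟩ := hon b
    obtain ⟨u, hu⟩ := hΦs ⟨(b, res σ), by rw [hH₁]; change b * (ψb (res σ))⁻¹ ∈ N; rwa [hψb]⟩
    refine ⟨u, ?_⟩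
    change (Φ u).1.1 = b
    rw [hu]
  · change (Φ x).1.1 = 1
    rw [hR1 x hx]
    rfl
  · intro u
    have h1 := (Φ u).2
    rw [hH₁, hΦ2, hψb] at h1
    exact h1

end

end Pool.Agent.J6H30.SB
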