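import Pool.Agent.J6H30.SB.Mono
import Pool.Agent.J6H30.SB.Step
import Pool.Agent.J6H30.SB.HilbSep

/-!
The step property of all open subgroups of the absolute Galois group of a Hilbertian field.
-/

set_option autoImplicit false
set_option linter.unusedSectionVars false

namespace Pool.Agent.J6H30.SB

open Pool.Agent.H391R2.T4 (HilbField)

section

variable {K Ω : Type} [Field K] [Field Ω] [Algebra K Ω] [IsSepClosed Ω]
  [Algebra.IsSeparable K Ω]

instance sepE (E : IntermediateField K Ω) : Algebra.IsSeparable E Ω :=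
  Algebra.isSeparable_tower_top_of_isSeparable K E Ω

theorem fix_fixed {H : Subgroup (Ω ≃ₐ[K] Ω)} (hH : IsClosed (H : Set (Ω ≃ₐ[K] Ω))) :
    (IntermediateField.fixedField H).fixingSubgroup = H := by
  have hg : IsGalois K Ω := galΩ
  exact InfiniteGalois.fixingSubgroup_fixedField ⟨H, hH⟩

theorem fd_fixed {H : Subgroup (Ω ≃ₐ[K] Ω)} (hH : IsOpen (H : Set (Ω ≃ₐ[K] Ω))) :
    FiniteDimensional K (IntermediateField.fixedField H) := by
  have hg : IsGalois K Ω := galΩ
  rw [← InfiniteGalois.isOpen_iff_finite]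
  have h1 := fix_fixed (Subgroup.isClosed_of_isOpen H hH)
  change IsOpen ((IntermediateField.fixedField H).fixingSubgroup : Set (Ω ≃ₐ[K] Ω))
  rw [h1]
  exact hH

/-- the inclusion of Galois groups -/
noncomputable def inc (E : IntermediateField K Ω) : (Ω ≃ₐ[E] Ω) →* (Ω ≃ₐ[K] Ω) :=
  AlgEquiv.restrictScalarsHom K

theorem inc_apply (E : IntermediateField K Ω) (σ : Ω ≃ₐ[E] Ω) (x : Ω) : inc E σ x = σ x := rfl

theorem inc_inj (E : IntermediateField K Ω) : Function.Injective (inc E) :=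
  AlgEquiv.restrictScalarsHom_injective K

theorem inc_mem (E : IntermediateField K Ω) (σ : Ω ≃ₐ[E] Ω) : inc E σ ∈ E.fixingSubgroup := by
  rw [IntermediateField.mem_fixingSubgroup_iff]
  intro x hx
  exact σ.commutes ⟨x, hx⟩

theorem exists_inc {E : IntermediateField K Ω} {g : Ω ≃ₐ[K] Ω} (hg : g ∈ E.fixingSubgroup) :
    ∃ σ, inc E σ = g :=
  ⟨IntermediateField.fixingSubgroupEquiv E ⟨g, hg⟩, by ext; rfl⟩

theorem open_comap (E : IntermediateField K Ω) {R : Subgroup (Ω ≃ₐ[K] Ω)}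
    (hR : IsOpen (R : Set (Ω ≃ₐ[K] Ω))) : IsOpen ((R.comap (inc E)) : Set (Ω ≃ₐ[E] Ω)) := by
  obtain ⟨L, hf, -, hL⟩ := exists_fix hR
  let M : IntermediateField E Ω := IntermediateField.adjoin E (L : Set Ω)
  have hM : FiniteDimensional E M := by
    obtain ⟨S, hS⟩ := IntermediateField.fg_def.1
      (IntermediateField.essFiniteType_iff.1 (inferInstance : Algebra.EssFiniteType K L))
    have h1 : M = IntermediateField.adjoin E (S : Set Ω) := by
      apply le_antisymm
      · rw [IntermediateField.adjoin_le_iff]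
        intro x hx
        have h2 : L ≤ (IntermediateField.adjoin E (S : Set Ω)).restrictScalars K := by
          rw [← hS.2, IntermediateField.adjoin_le_iff]
          exact IntermediateField.subset_adjoin E _
        exact h2 hx
      · rw [IntermediateField.adjoin_le_iff]
        intro x hx
        apply IntermediateField.subset_adjoin
        change x ∈ L
        rw [← hS.2]
        exact IntermediateField.subset_adjoin _ _ hx
    rw [h1]
    have hfinS : Finite S := hS.1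
    exact IntermediateField.finiteDimensional_adjoin fun x _ =>
      (Algebra.IsAlgebraic.isAlgebraic (R := E) x).isIntegral
  have h1 : IsOpen (M.fixingSubgroup : Set (Ω ≃ₐ[E] Ω)) := IntermediateField.fixingSubgroup_isOpen M
  refine Subgroup.isOpen_mono (H₁ := M.fixingSubgroup) ?_ h1
  intro σ hσ
  rw [Subgroup.mem_comap]
  apply hL
  rw [IntermediateField.mem_fixingSubgroup_iff] at hσ ⊢
  intro x hx
  exact hσ x (IntermediateField.subset_adjoin E _ hx)

theorem open_map (E : IntermediateField K Ω) [FiniteDimensional K E] {U : Subgroup (Ω ≃ₐ[E] Ω)}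
    (hU : IsOpen (U : Set (Ω ≃ₐ[E] Ω))) : IsOpen ((U.map (inc E)) : Set (Ω ≃ₐ[K] Ω)) := by
  obtain ⟨L, hf, -, hL⟩ := exists_fix hU
  let M : IntermediateField K Ω := L.restrictScalars K
  have hM : FiniteDimensional K M := by
    have : FiniteDimensional K L := FiniteDimensional.trans K E L
    exact this
  have h1 : IsOpen (M.fixingSubgroup : Set (Ω ≃ₐ[K] Ω)) := IntermediateField.fixingSubgroup_isOpen M
  refine Subgroup.isOpen_mono (H₁ := M.fixingSubgroup) ?_ h1
  intro g hg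
  rw [IntermediateField.mem_fixingSubgroup_iff] at hg
  have h2 : g ∈ E.fixingSubgroup := by
    rw [IntermediateField.mem_fixingSubgroup_iff]
    intro x hx
    exact hg x (L.algebraMap_mem ⟨x, hx⟩)
  obtain ⟨σ, rfl⟩ := exists_inc h2
  refine ⟨σ, hL ?_, rfl⟩
  rw [IntermediateField.mem_fixingSubgroup_iff]
  exact hg

theorem sp_open (hK : HilbField K) (H : Subgroup (Ω ≃ₐ[K] Ω))
    (hH : IsOpen (H : Set (Ω ≃ₐ[K] Ω))) : SP H := by
  classical
  intro B _ _ N _ ψ hψ ht hon P hP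
  set E := IntermediateField.fixedField H with hE
  have hfix : E.fixingSubgroup = H := fix_fixed (Subgroup.isClosed_of_isOpen H hH)
  have hfd : FiniteDimensional K E := fd_fixed hH
  have hEh : HilbField E := hilb_sep K E hK
  have hin : ∀ σ, inc E σ ∈ H := fun σ => by
    rw [← hfix]; exact inc_mem E σ
  have hex : ∀ g ∈ H, ∃ σ, inc E σ = g := fun g hg => exists_inc (by rw [hfix]; exact hg)
  let ψE : (Ω ≃ₐ[E] Ω) →* B := MonoidHom.mk' (fun σ => ψ (inc E σ)) fun σ τ => by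
    rw [map_mul]
    exact hψ _ (hin σ) _ (hin τ)
  have hψE : ∀ σ, ψE σ = ψ (inc E σ) := fun σ => rfl
  obtain ⟨R, hR, hR1⟩ := ht
  have hopen : IsOpen (ψE.ker : Set (Ω ≃ₐ[E] Ω)) := by
    refine Subgroup.isOpen_mono (H₁ := R.comap (inc E)) ?_ (open_comap E hR)
    intro σ hσ
    rw [MonoidHom.mem_ker, hψE]
    exact hR1 _ hσ (hin σ)
  have honE : ∀ b, ∃ σ, b * (ψE σ)⁻¹ ∈ N := by
    intro b
    obtain ⟨x, hx, hxb⟩ := hon b
    obtain ⟨σ, rfl⟩ := hex x hx
    exact ⟨σ, hxb⟩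
  obtain ⟨n₀, hn₀⟩ := step0 (k := E) (Ω := Ω) hEh B N ψE hopen honE (P.comap (inc E))
    (open_comap E hP)
  refine ⟨n₀, fun n hn => ?_⟩
  obtain ⟨U, φ, h1, h2, h3, h4, ⟨R', hR', h5⟩, h6⟩ := hn₀ n hn
  have key : ∀ g ∈ U.map (inc E), ∃ u : U, inc E u.1 = g := by
    rintro g ⟨σ, hσ, rfl⟩
    exact ⟨⟨σ, hσ⟩, rfl⟩
  let ψ' : (Ω ≃ₐ[K] Ω) → B := fun g => if h : g ∈ U.map (inc E) then φ (key g h).choose else 1
  have hψ' : ∀ u : U, ψ' (inc E u.1) = φ u := by
    intro u
    have hm : inc E u.1 ∈ U.map (inc E) := ⟨u.1, u.2, rfl⟩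
    change (if h : inc E u.1 ∈ U.map (inc E) then φ (key _ h).choose else 1) = φ u
    rw [dif_pos hm]
    congr 1
    exact Subtype.ext (inc_inj E (key _ hm).choose_spec)
  refine ⟨U.map (inc E), ψ', ?_, open_map E h1, ?_, ?_, ?_, ?_, ?_, ?_⟩
  · rintro g ⟨σ, -, rfl⟩
    exact hin σ
  · have h7 : H = (⊤ : Subgroup (Ω ≃ₐ[E] Ω)).map (inc E) := by
      ext g
      constructor
      · intro hg
        obtain ⟨σ, rfl⟩ := hex g hg
        exact ⟨σ, trivial, rfl⟩
      · rintro ⟨σ, -, rfl⟩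
        exact hin σ
    conv_lhs => rw [h7]
    rw [Subgroup.relIndex_map_map_of_injective _ _ (inc_inj E), Subgroup.relIndex_top_right, h2]
  · intro g hg
    obtain ⟨σ, rfl⟩ := hex g hg
    have h7 := h3 (show σ ∈ (⊤ : Subgroup (Ω ≃ₐ[E] Ω)) from trivial)
    have h8 : inc E σ ∈ (U ⊔ P.comap (inc E)).map (inc E) := ⟨σ, h7, rfl⟩
    rw [Subgroup.map_sup] at h8
    exact sup_le_sup le_rfl (Subgroup.map_comap_le _ _) h8
  · intro x hx y hy
    obtain ⟨u, rfl⟩ := key x hx
    obtain ⟨w, rfl⟩ := key y hy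
    have h7 : inc E u.1 * inc E w.1 = inc E (u * w : U).1 := by
      rw [← map_mul]; rfl
    rw [h7, hψ', hψ', hψ', map_mul]
  · refine ⟨R'.map (inc E), open_map E hR', ?_⟩
    rintro x ⟨σ, hσ, rfl⟩ hx
    obtain ⟨u, hu⟩ := key _ hx
    have h7 := inc_inj E hu
    rw [← hu, hψ']
    apply h5
    rw [h7]
    exact hσ
  · intro b
    obtain ⟨u, hu⟩ := h4 b
    exact ⟨inc E u.1, ⟨u.1, u.2, rfl⟩, by rw [hψ', hu]⟩
  · intro x hx
    obtain ⟨u, rfl⟩ := key x hx
    rw [hψ']
    exact h6 u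

end

end Pool.Agent.J6H30.SB
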