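import Pool.Agent.J6H30.SB.Lim

/-!
Solutions of embedding problems from homomorphisms of the absolute Galois group.
-/

set_option autoImplicit false
set_option linter.unusedSectionVars false

namespace Pool.Agent.J6H30.SB

open Pool.Agent.H391R2.T4 (HilbField WeakSol)

/-- A proper solution of an embedding problem. -/
def Proper (E F₁ B : Type) [Field E] [Field F₁] [Algebra E F₁] [Normal E F₁] [Group B]
    (α : B →* (F₁ ≃ₐ[E] F₁)) : Prop :=
  ∃ (N : Type) (_ : Field N) (_ : Algebra E N) (_ : Algebra F₁ N) (_ : IsScalarTower E F₁ N)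
    (_ : FiniteDimensional E N) (_ : IsGalois E N) (γ : (N ≃ₐ[E] N) ≃* B),
    ∀ σ, α (γ σ) = σ.restrictNormal F₁

theorem sol_of_hom {E Ω F₁ B : Type} [Field E] [Field Ω] [Algebra E Ω] [hgΩ : IsGalois E Ω]
    [Field F₁] [Algebra E F₁] [FiniteDimensional E F₁] [IsGalois E F₁] [Group B]
    (i : F₁ →ₐ[E] Ω) (α : B →* (F₁ ≃ₐ[E] F₁)) (Φ : (Ω ≃ₐ[E] Ω) →* B)
    (hΦ : Function.Surjective Φ) (ho : IsOpen (Φ.ker : Set (Ω ≃ₐ[E] Ω)))
    (h : ∀ γ x, γ (i x) = i (α (Φ γ) x)) : Proper E F₁ B α := by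
  let N := IntermediateField.fixedField Φ.ker
  have hfix : N.fixingSubgroup = Φ.ker :=
    InfiniteGalois.fixingSubgroup_fixedField ⟨Φ.ker, Subgroup.isClosed_of_isOpen _ ho⟩
  have hN : FiniteDimensional E N := by
    rw [← InfiniteGalois.isOpen_iff_finite]
    change IsOpen (N.fixingSubgroup : Set (Ω ≃ₐ[E] Ω))
    rw [hfix]
    exact ho
  have hNg : IsGalois E N := by
    rw [← InfiniteGalois.normal_iff_isGalois, hfix]
    infer_instance
  let res : (Ω ≃ₐ[E] Ω) →* (N ≃ₐ[E] N) := AlgEquiv.restrictNormalHom N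
  have hres : Function.Surjective res := AlgEquiv.restrictNormalHom_surjective Ω
  have hker : res.ker = Φ.ker := by
    rw [← hfix]
    exact IntermediateField.restrictNormalHom_ker N
  let γ₀ : (N ≃ₐ[E] N) →* B := MonoidHom.liftOfSurjective res hres ⟨Φ, hker.le⟩
  have hγ₀ : ∀ σ, γ₀ (res σ) = Φ σ := fun σ =>
    MonoidHom.liftOfRightInverse_comp_apply res _ _ ⟨Φ, hker.le⟩ σ
  have hbij : Function.Bijective γ₀ := by
    constructor
    · rw [injective_iff_map_eq_one]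
      intro ρ hρ
      obtain ⟨σ, rfl⟩ := hres ρ
      rw [hγ₀] at hρ
      have h1 : σ ∈ res.ker := by rw [hker]; exact hρ
      exact h1
    · intro b
      obtain ⟨σ, hσ⟩ := hΦ b
      exact ⟨res σ, by rw [hγ₀, hσ]⟩
  have hmem : ∀ x, i x ∈ N := by
    intro x
    change i x ∈ IntermediateField.fixedField Φ.ker
    rw [IntermediateField.mem_fixedField_iff]
    intro σ hσ
    rw [h, (MonoidHom.mem_ker.1 hσ), map_one]
    rfl
  let a : F₁ →ₐ[E] N := i.codRestrict N.toSubalgebra hmem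
  let aF : Algebra F₁ N := a.toRingHom.toAlgebra
  have tF : IsScalarTower E F₁ N := IsScalarTower.of_algebraMap_eq fun x => (a.commutes x).symm
  refine ⟨N, inferInstance, inferInstance, aF, tF, hN, hNg, MulEquiv.ofBijective γ₀ hbij,
    fun σ => ?_⟩
  obtain ⟨τ, rfl⟩ := hres σ
  change α (γ₀ (res τ)) = _
  rw [hγ₀]
  ext x
  apply i.toRingHom.injective
  change i (α (Φ τ) x) = i ((AlgEquiv.restrictNormal (res τ) F₁) x)
  have h1 : algebraMap F₁ N ((AlgEquiv.restrictNormal (res τ) F₁) x) =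
      res τ (algebraMap F₁ N x) := AlgEquiv.restrictNormal_commutes (res τ) F₁ x
  have h2 : ((res τ (algebraMap F₁ N x) : N) : Ω) = τ ((algebraMap F₁ N x : N) : Ω) :=
    AlgEquiv.restrictNormal_commutes τ N _
  have h3 := congrArg (fun z : N => (z : Ω)) h1
  have h4 : ∀ y, ((algebraMap F₁ N y : N) : Ω) = i y := fun y => rfl
  change ((algebraMap F₁ N _ : N) : Ω) = ((res τ (algebraMap F₁ N x) : N) : Ω) at h3
  rw [h2, h4, h4, h] at h3
  exact h3.symm

theorem open_comap_gen {k E Ω : Type} [Field k] [Field E] [Field Ω] [Algebra k E] [Algebra E Ω]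
    [Algebra k Ω] [IsScalarTower k E Ω] [IsSepClosed Ω] [Algebra.IsSeparable k Ω]
    {R : Subgroup (Ω ≃ₐ[k] Ω)} (hR : IsOpen (R : Set (Ω ≃ₐ[k] Ω))) :
    IsOpen ((R.comap (AlgEquiv.restrictScalarsHom k : (Ω ≃ₐ[E] Ω) →* (Ω ≃ₐ[k] Ω))) :
      Set (Ω ≃ₐ[E] Ω)) := by
  obtain ⟨L, hf, -, hL⟩ := exists_fix hR
  have hsE : Algebra.IsSeparable E Ω := Algebra.isSeparable_tower_top_of_isSeparable k E Ω
  obtain ⟨S, hS, hSL⟩ := IntermediateField.fg_def.1
    (IntermediateField.essFiniteType_iff.1 (inferInstance : Algebra.EssFiniteType k L))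
  refine Subgroup.isOpen_mono ?_ (open_adjoin (K := E) hS)
  intro σ hσ
  rw [Subgroup.mem_comap]
  apply hL
  rw [← hSL]
  apply fix_adjoin
  intro x hx
  rw [IntermediateField.mem_fixingSubgroup_iff] at hσ
  exact hσ x (IntermediateField.subset_adjoin E _ hx)

section

variable {K Ω : Type} [Field K] [Field Ω] [Algebra K Ω] [IsSepClosed Ω]
  [Algebra.IsSeparable K Ω]

/-- The property of the limit field. -/
def LimProp (F : IntermediateField K Ω) : Prop :=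
  ∀ (C : Subgroup (Ω ≃ₐ[K] Ω)), C ≤ F.fixingSubgroup → ∀ (P : Subgroup (Ω ≃ₐ[K] Ω)),
    IsOpen (P : Set (Ω ≃ₐ[K] Ω)) → P ⊓ F.fixingSubgroup ≤ C →
    ∀ (B : Type) [Group B] [Finite B] (N : Subgroup B) [N.Normal] (ψ : (Ω ≃ₐ[K] Ω) → B),
    MulOn ψ C → Triv ψ C → (∀ b, ∃ x ∈ C, b * (ψ x)⁻¹ ∈ N) →
    ∃ ψ' : (Ω ≃ₐ[K] Ω) → B, MulOn ψ' C ∧ Triv ψ' C ∧ (∀ b, ∃ x ∈ C, ψ' x = b) ∧
      ∀ x ∈ C, ψ' x * (ψ x)⁻¹ ∈ N

theorem ep_sol (F : IntermediateField K Ω) (hlim : LimProp F) (E : Type) [Field E] [Algebra F E]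
    [FiniteDimensional F E] [Algebra.IsSeparable F E] (F₁ : Type) [Field F₁] [Algebra E F₁]
    [FiniteDimensional E F₁] [IsGalois E F₁] (B : Type) [Group B] [Finite B]
    (α : B →* (F₁ ≃ₐ[E] F₁)) (hw : WeakSol E F₁ B α) : Proper E F₁ B α := by
  classical
  obtain ⟨L', i1, i2, i3, i4, i5, i6, s, hs⟩ := hw
  let aFL : Algebra F L' := ((algebraMap E L').comp (algebraMap F E)).toAlgebra
  have tFE : IsScalarTower F E L' := IsScalarTower.of_algebraMap_eq fun _ => rfl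
  have hfd : FiniteDimensional F L' := FiniteDimensional.trans F E L'
  have hsep : Algebra.IsSeparable F L' := Algebra.IsSeparable.trans F E L'
  let j : L' →ₐ[F] Ω := IsSepClosed.lift
  let aLΩ : Algebra L' Ω := j.toRingHom.toAlgebra
  let aEΩ : Algebra E Ω := (j.toRingHom.comp (algebraMap E L')).toAlgebra
  have tELΩ : IsScalarTower E L' Ω := IsScalarTower.of_algebraMap_eq fun _ => rfl
  have tFEΩ : IsScalarTower F E Ω := IsScalarTower.of_algebraMap_eq fun x => by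
    change algebraMap F Ω x = j (algebraMap E L' (algebraMap F E x))
    rw [← IsScalarTower.algebraMap_apply F E L', j.commutes]
  have hsE : Algebra.IsSeparable E Ω := Algebra.isSeparable_tower_top_of_isSeparable F E Ω
  have hgE : IsGalois E Ω := galΩ
  let up : (Ω ≃ₐ[E] Ω) →* (Ω ≃ₐ[K] Ω) := (inc F).comp (AlgEquiv.restrictScalarsHom F)
  have hup : ∀ γ x, up γ x = γ x := fun γ x => rfl
  have hupinj : Function.Injective up := by
    intro γ γ' h
    ext x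
    rw [← hup, h, hup]
  let C : Subgroup (Ω ≃ₐ[K] Ω) := up.range
  have hC : C ≤ F.fixingSubgroup := by
    rintro _ ⟨γ, rfl⟩
    exact inc_mem F _
  obtain ⟨θ, hθ⟩ := Field.exists_primitive_element F L'
  let P : Subgroup (Ω ≃ₐ[K] Ω) := (IntermediateField.adjoin K {j θ}).fixingSubgroup
  have hP : IsOpen (P : Set (Ω ≃ₐ[K] Ω)) := open_adjoin (Set.finite_singleton _)
  have key : ∀ g ∈ P ⊓ F.fixingSubgroup, ∃ γ : Ω ≃ₐ[E] Ω, up γ = g ∧ ∀ x : L', γ (j x) = j x := by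
    rintro g ⟨hgP, hgF⟩
    obtain ⟨τ, rfl⟩ := exists_inc hgF
    have h1 : τ (j θ) = j θ := by
      have h2 : inc F τ ∈ (IntermediateField.adjoin K {j θ}).fixingSubgroup := hgP
      rw [IntermediateField.mem_fixingSubgroup_iff] at h2
      exact h2 _ (IntermediateField.subset_adjoin _ _ rfl)
    have h2 : ∀ x : L', τ (j x) = j x := by
      intro x
      have hx : x ∈ IntermediateField.adjoin F {θ} := by
        rw [hθ]
        trivial
      induction hx using IntermediateField.adjoin_induction with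
      | mem x hx =>
        rw [Set.mem_singleton_iff] at hx
        rw [hx, h1]
      | algebraMap x => rw [j.commutes, τ.commutes]
      | add x y _ _ hx hy => rw [map_add, map_add, hx, hy]
      | inv x _ hx => rw [map_inv₀, map_inv₀, hx]
      | mul x y _ _ hx hy => rw [map_mul, map_mul, hx, hy]
    exact ⟨AlgEquiv.ofRingEquiv (f := τ.toRingEquiv) fun e => h2 (algebraMap E L' e), rfl, h2⟩
  let resL : (Ω ≃ₐ[E] Ω) →* (L' ≃ₐ[E] L') := AlgEquiv.restrictNormalHom L'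
  have hres : ∀ γ x, j (resL γ x) = γ (j x) := fun γ x =>
    AlgEquiv.restrictNormal_commutes γ L' x
  have hresL : Function.Surjective resL := AlgEquiv.restrictNormalHom_surjective Ω
  let ψ : (Ω ≃ₐ[K] Ω) → B := fun g => if h : ∃ γ, up γ = g then s (resL h.choose) else 1
  have hψ : ∀ γ, ψ (up γ) = s (resL γ) := by
    intro γ
    have h : ∃ γ', up γ' = up γ := ⟨γ, rfl⟩
    have h1 : ψ (up γ) = s (resL h.choose) := dif_pos h
    rw [h1, hupinj h.choose_spec]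
  have hψm : MulOn ψ C := by
    rintro _ ⟨γ, rfl⟩ _ ⟨γ', rfl⟩
    rw [← map_mul, hψ, hψ, hψ, map_mul, map_mul]
  have hψt : Triv ψ C := by
    refine ⟨P, hP, ?_⟩
    rintro _ hx ⟨γ, rfl⟩
    obtain ⟨γ', h1, h2⟩ := key (up γ) ⟨hx, hC ⟨γ, rfl⟩⟩
    have h3 := hupinj h1
    rw [hψ]
    have h4 : resL γ = 1 := by
      ext x
      apply j.toRingHom.injective
      change j (resL γ x) = j x
      rw [hres, ← h3, h2]
    rw [h4, map_one]
  have hon : ∀ b, ∃ x ∈ C, b * (ψ x)⁻¹ ∈ α.ker := by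
    intro b
    obtain ⟨ρ, hρ⟩ := AlgEquiv.restrictNormalHom_surjective (F := E) (K₁ := F₁) L' (α b)
    obtain ⟨γ, hγ⟩ := hresL ρ
    refine ⟨up γ, ⟨γ, rfl⟩, ?_⟩
    rw [MonoidHom.mem_ker, map_mul, map_inv, hψ, hs, hγ]
    rw [mul_inv_eq_one, ← hρ]
    rfl
  have hPC : P ⊓ F.fixingSubgroup ≤ C := by
    intro g hg
    obtain ⟨γ, h1, -⟩ := key g hg
    exact ⟨γ, h1⟩
  obtain ⟨ψ', h1, ⟨R, hR, hR1⟩, h3, h4⟩ := hlim C hC P hP hPC B α.ker ψ hψm hψt hon
  let Φ : (Ω ≃ₐ[E] Ω) →* B := MonoidHom.mk' (fun γ => ψ' (up γ)) fun γ γ' => by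
    rw [map_mul]
    exact h1 _ ⟨γ, rfl⟩ _ ⟨γ', rfl⟩
  have hΦ : ∀ γ, Φ γ = ψ' (up γ) := fun γ => rfl
  have hΦs : Function.Surjective Φ := by
    intro b
    obtain ⟨_, ⟨γ, rfl⟩, hb⟩ := h3 b
    exact ⟨γ, hb⟩
  have hopen : IsOpen (Φ.ker : Set (Ω ≃ₐ[E] Ω)) := by
    have h5 := open_comap_gen (k := F) (E := E) (open_comap F hR)
    refine Subgroup.isOpen_mono ?_ h5
    intro γ hγ
    rw [MonoidHom.mem_ker, hΦ]
    exact hR1 _ hγ ⟨γ, rfl⟩
  let i : F₁ →ₐ[E] Ω := (IsScalarTower.toAlgHom E L' Ω).comp (IsScalarTower.toAlgHom E F₁ L')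
  have hi : ∀ x, i x = j (algebraMap F₁ L' x) := fun x => rfl
  refine sol_of_hom i α Φ hΦs hopen fun γ x => ?_
  have h5 : α (Φ γ) = (resL γ).restrictNormal F₁ := by
    have h6 := h4 (up γ) ⟨γ, rfl⟩
    rw [MonoidHom.mem_ker, map_mul, map_inv, mul_inv_eq_one, hψ, hs] at h6
    exact h6
  rw [hi, hi, h5, ← hres]
  congr 1
  exact (AlgEquiv.restrictNormal_commutes (resL γ) F₁ x).symm

end

end Pool.Agent.J6H30.SB
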