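import Mathlib

/-!
Towers of open subgroups of a compact group: every demand which is met from some stage on is
achieved.
-/

set_option autoImplicit false

namespace Pool.Agent.J6H30.SB

section tower

variable {G : Type} [Group G] [TopologicalSpace G]

/-- A stage of the tower: an open subgroup, the number of the protected subgroup and the set of the
used degrees. -/
structure St (A : Set ℕ) (G : Type) [Group G] [TopologicalSpace G] where
  H : Subgroup G
  op : IsOpen (H : Set G)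
  k : ℕ
  T : Finset ℕ
  sub : (T : Set ℕ) ⊆ A
  idx : H.index = ∏ a ∈ T, a

/-- The step hypothesis. -/
def HStep (A : Set ℕ) (Q : ℕ → Subgroup G) {D : Type} (Pre : D → Subgroup G → Prop)
    (Ach : D → Subgroup G → ℕ → Prop) : Prop :=
  ∀ (d : D) (H : Subgroup G) (k N : ℕ), IsOpen (H : Set G) → Pre d H →
    ∃ (H' : Subgroup G) (k' : ℕ), H' ≤ H ∧ IsOpen (H' : Set G) ∧ k ≤ k' ∧ H ≤ H' ⊔ Q k ∧
      (H' = H ∨ (H'.relIndex H ∈ A ∧ N < H'.relIndex H)) ∧ Ach d H' k'

theorem next {A : Set ℕ} {Q : ℕ → Subgroup G} {D : Type} {Pre : D → Subgroup G → Prop}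
    {Ach : D → Subgroup G → ℕ → Prop} (h : HStep A Q Pre Ach) (d : D) (s : St A G) :
    ∃ s' : St A G, s'.H ≤ s.H ∧ s.k ≤ s'.k ∧ s.H ≤ s'.H ⊔ Q s.k ∧
      (Pre d s.H → Ach d s'.H s'.k) := by
  classical
  by_cases hp : Pre d s.H
  · obtain ⟨H', k', h1, h2, h3, h4, h5, h6⟩ := h d s.H s.k (s.T.sup id) s.op hp
    rcases h5 with rfl | ⟨h5, h7⟩
    · exact ⟨⟨s.H, h2, k', s.T, s.sub, s.idx⟩, h1, h3, h4, fun _ => h6⟩
    · have hni : H'.relIndex s.H ∉ s.T := by
        intro hmem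
        have := Finset.le_sup (f := id) hmem
        simp only [id] at this
        omega
      refine ⟨⟨H', h2, k', insert (H'.relIndex s.H) s.T, ?_, ?_⟩, h1, h3, h4, fun _ => h6⟩
      · intro a ha
        rw [Finset.coe_insert, Set.mem_insert_iff] at ha
        rcases ha with rfl | ha
        · exact h5
        · exact s.sub ha
      · rw [Finset.prod_insert hni, ← s.idx]
        exact (Subgroup.relIndex_mul_index h1).symm
  · exact ⟨s, le_rfl, le_rfl, le_sup_left, fun h => absurd h hp⟩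

theorem tower {A : Set ℕ} {Q : ℕ → Subgroup G} (hQ : Antitone Q) {D : Type} [Countable D]
    [Nonempty D] {Pre : D → Subgroup G → Prop}
    {Ach : D → Subgroup G → ℕ → Prop} (h : HStep A Q Pre Ach) (k₀ : ℕ) :
    ∃ s : ℕ → Subgroup G, Antitone s ∧ (∀ n, IsOpen (s n : Set G)) ∧
      (∀ n, ∃ T : Finset ℕ, (T : Set ℕ) ⊆ A ∧ (s n).index = ∏ a ∈ T, a) ∧
      (∀ n, ⊤ ≤ s n ⊔ Q k₀) ∧
      ∀ d m, (∀ n ≥ m, Pre d (s n)) → ∃ n ≥ m, ∃ k, Ach d (s n) k ∧ ∀ j, s n ≤ s j ⊔ Q k := by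
  classical
  obtain ⟨e, he⟩ := exists_surjective_nat D
  choose nx h1 h2 h3 h4 using next h
  let s0 : St A G := ⟨⊤, isOpen_univ, k₀, ∅, by simp, by simp⟩
  let s : ℕ → St A G := fun n => Nat.rec s0 (fun n s => nx (e (Nat.unpair n).1) s) n
  have hs : ∀ n, s (n + 1) = nx (e (Nat.unpair n).1) (s n) := fun n => rfl
  have hmono : Antitone fun n => (s n).H := by
    refine antitone_nat_of_succ_le fun n => ?_
    change (s (n + 1)).H ≤ (s n).H
    rw [hs]
    exact h1 _ _
  have hk : Monotone fun n => (s n).k := by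
    refine monotone_nat_of_le_succ fun n => ?_
    change (s n).k ≤ (s (n + 1)).k
    rw [hs]
    exact h2 _ _
  have key : ∀ n j, (s n).H ≤ (s j).H ⊔ Q (s n).k := by
    intro n j
    rcases le_total j n with hj | hj
    · exact (hmono hj).trans le_sup_left
    · obtain ⟨i, rfl⟩ := Nat.exists_eq_add_of_le hj
      induction i with
      | zero => exact le_sup_left
      | succ i ih =>
        refine (ih (Nat.le_add_right _ _)).trans ?_
        refine sup_le ?_ le_sup_right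
        have h5 : (s (n + i)).H ≤ (s (n + (i + 1))).H ⊔ Q (s (n + i)).k := by
          rw [← add_assoc, hs]
          exact h3 _ _
        refine h5.trans (sup_le_sup le_rfl (hQ (hk (Nat.le_add_right n i))))
  refine ⟨fun n => (s n).H, hmono, fun n => (s n).op, fun n => ⟨(s n).T, (s n).sub, (s n).idx⟩,
    fun n => ?_, ?_⟩
  · exact key 0 n
  · intro d m hd
    obtain ⟨a, ha⟩ := he d
    have hn : m ≤ Nat.pair a m := Nat.right_le_pair a m
    refine ⟨Nat.pair a m + 1, by omega, (s (Nat.pair a m + 1)).k, ?_,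
      fun j => key (Nat.pair a m + 1) j⟩
    have h5 := h4 d (s (Nat.pair a m)) (hd _ hn)
    have h6 := hs (Nat.pair a m)
    rw [Nat.unpair_pair, ha] at h6
    have h7 : Ach d (s (Nat.pair a m + 1)).H (s (Nat.pair a m + 1)).k := by
      rw [h6]
      exact h5
    exact h7

/-- the limit of a decreasing sequence of closed subgroups -/
theorem limit_le [CompactSpace G] [IsTopologicalGroup G] {s : ℕ → Subgroup G} (hs : Antitone s)
    (hop : ∀ n, IsOpen (s n : Set G)) {Q : Subgroup G} [hQn : Q.Normal] (hQ : IsOpen (Q : Set G))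
    {X : Subgroup G} (h : ∀ j, X ≤ s j ⊔ Q) : X ≤ (⨅ j, s j) ⊔ Q := by
  intro x hx
  have hcl : ∀ n, IsClosed (s n : Set G) := fun n => Subgroup.isClosed_of_isOpen _ (hop n)
  have hQc : IsClosed (Q : Set G) := Subgroup.isClosed_of_isOpen _ hQ
  have hpre : IsClosed {y : G | y⁻¹ * x ∈ Q} :=
    hQc.preimage (f := fun y : G => y⁻¹ * x) (by fun_prop)
  have hne : (⋂ j, ((s j : Set G) ∩ {y : G | y⁻¹ * x ∈ Q})).Nonempty := by
    apply IsCompact.nonempty_iInter_of_sequence_nonempty_isCompact_isClosed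
    · intro i
      exact Set.inter_subset_inter_left _ (hs (Nat.le_succ i))
    · intro i
      have h1 : x ∈ ((s i ⊔ Q : Subgroup G) : Set G) := h i hx
      rw [Subgroup.mul_normal] at h1
      obtain ⟨y, hy, q, hq, rfl⟩ := h1
      exact ⟨y, hy, by simpa using hq⟩
    · exact ((hcl 0).inter hpre).isCompact
    · intro i
      exact (hcl i).inter hpre
  obtain ⟨y, hy⟩ := hne
  have h1 : y ∈ ⨅ j, s j := by
    rw [Subgroup.mem_iInf]
    intro j
    exact (Set.mem_iInter.1 hy j).1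
  have h2 : y⁻¹ * x ∈ Q := (Set.mem_iInter.1 hy 0).2
  have h3 : x = y * (y⁻¹ * x) := by group
  rw [h3]
  exact Subgroup.mul_mem_sup h1 h2

end tower

/-- `ψ` is multiplicative on `H` -/
def MulOn {G B : Type} [Group G] [Group B] (ψ : G → B) (H : Subgroup G) : Prop :=
  ∀ x ∈ H, ∀ y ∈ H, ψ (x * y) = ψ x * ψ y

/-- `ψ` is trivial on an open subgroup of `H` -/
def Triv {G B : Type} [Group G] [TopologicalSpace G] [Group B] (ψ : G → B) (H : Subgroup G) :
    Prop :=
  ∃ R : Subgroup G, IsOpen (R : Set G) ∧ ∀ x ∈ R, x ∈ H → ψ x = 1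

/-- The step property of an open subgroup `H`: homomorphisms of `H` to `B` can be made surjective on
subgroups of index `n` by a change by elements of `N`. -/
def SP {G : Type} [Group G] [TopologicalSpace G] (H : Subgroup G) : Prop :=
  ∀ (B : Type) [Group B] [Finite B] (N : Subgroup B) [N.Normal] (ψ : G → B), MulOn ψ H →
    Triv ψ H → (∀ b, ∃ x ∈ H, b * (ψ x)⁻¹ ∈ N) → ∀ P : Subgroup G, IsOpen (P : Set G) →
    ∃ n₀ : ℕ, ∀ n ≥ n₀, ∃ (U : Subgroup G) (ψ' : G → B), U ≤ H ∧ IsOpen (U : Set G) ∧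
      U.relIndex H = n ∧ H ≤ U ⊔ P ∧ MulOn ψ' U ∧ Triv ψ' U ∧ (∀ b, ∃ x ∈ U, ψ' x = b) ∧
      ∀ x ∈ U, ψ' x * (ψ x)⁻¹ ∈ N

theorem MulOn.one {G B : Type} [Group G] [Group B] {ψ : G → B} {H : Subgroup G}
    (h : MulOn ψ H) : ψ 1 = 1 := by
  have h1 := h 1 H.one_mem 1 H.one_mem
  rw [mul_one] at h1
  exact (left_eq_mul.1 h1)

theorem MulOn.inv {G B : Type} [Group G] [Group B] {ψ : G → B} {H : Subgroup G}
    (h : MulOn ψ H) {x : G} (hx : x ∈ H) : ψ x⁻¹ = (ψ x)⁻¹ := by
  have h1 := h x hx x⁻¹ (H.inv_mem hx)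
  rw [mul_inv_cancel, h.one] at h1
  exact (inv_eq_of_mul_eq_one_right h1.symm).symm

end Pool.Agent.J6H30.SB
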